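import Pool.Agent.Lib.MP_4eed4e_an_XG.GDir

set_option autoImplicit false

/-!
Project X, block MG, module GCross: the local structure of the limit graph.

* `eq_or_neg_of_det`: two vectors of norm 1 with `det2 = 0` are equal up to sign (one is a multiple
  of the other, `det2_eq_zero` for a nonzero vector: `w' = a • w`, `|a| = 1`).
* `dir_par`: `e = f` is clear. Let `e ≠ f` and suppose `det2 (dL U p e) (dL U p f) ≠ 0`. Let
  `z k → y`, `z' k → y` (minus `x k`), `z k`, `z' k` in the two segments (`mem_ELim_iff`). The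
  determinants `det2 (dk p e k) (dk p f k)` converge to a nonzero number. With
  `s k = det2 (z' k - z k) (dk p f k) / det2 (dk p e k) (dk p f k) → 0` and
  `t k = det2 (z' k - z k) (dk p e k) / det2 (dk p e k) (dk p f k) → 0` we have eventually
  `z k + s k • dk p e k = z' k + t k • dk p f k =: w k`, and `w k - x k → y`. The point `w k` is on
  both lines, so by `ELim_line` (part 1) it is eventually in both open segments, against
  `SLG.disj`. So `det2 = 0`.
* `edge_loc`: `y ∉ ELim e`: `ELim e` is closed, so a ball about `y` is disjoint from it.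
  `y ∈ ELim e`, `z ∈ GLim` close to `y`: `z ∉ VLim` (finite set, `y ∉ VLim`), so `z ∈ ELim f` with
  `f ∈ E`, and `f` is not one of the edges with `y ∉ ELim f`; so `y ∈ ELim f`,
  `z = y + s • dL f` with `|s| = dist z y` (`ELim_sub`), `dL f = ± dL e` (`dir_par`), so
  `z = y ± s • dL e ∈ ELim e` by `ELim_line`.
* `GLim_loc`: `y ∈ ELim e` for some `e ∈ E`; take `w = dL U p e` and combine the same arguments.
-/

namespace Pool.Agent.MP4eed4eX

open MeasureTheory Set Filter Topology Pool.Agent.MP4eed4eP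

variable {n : ℕ} {U : Ultrafilter ℕ} {p : ℕ → Fin n → P} {E : Finset (Fin n × Fin n)}
  {x : ℕ → P}

theorem SLG.ne {q : Fin n → P} (h : SLG q E) {e : Fin n × Fin n} (he : e ∈ E) :
    q e.1 ≠ q e.2 := fun h1 => (h.lt e he).ne (h.inj h1)

private lemma GCross_smul {w w' : P} (h : ‖w‖ = 1) (hd : det2 w w' = 0) :
    ∃ a : ℝ, w' = a • w := by
  unfold det2 at hd
  by_cases h1 : w.1 = 0
  · by_cases h2 : w.2 = 0
    · exfalso
      have : w = 0 := Prod.ext h1 h2
      rw [this, norm_zero] at h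
      exact zero_ne_one h
    · refine ⟨w'.2 / w.2, Prod.ext ?_ ?_⟩
      · simp only [Prod.smul_fst, smul_eq_mul]
        rw [h1, zero_mul] at hd
        have : w'.1 = 0 := by
          rcases mul_eq_zero.1 (by linarith : w.2 * w'.1 = 0) with h3 | h3
          · exact absurd h3 h2
          · exact h3
        rw [this, h1, mul_zero]
      · simp only [Prod.smul_snd, smul_eq_mul]
        field_simp
  · refine ⟨w'.1 / w.1, Prod.ext ?_ ?_⟩
    · simp only [Prod.smul_fst, smul_eq_mul]
      field_simp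
    · simp only [Prod.smul_snd, smul_eq_mul]
      field_simp
      linarith

theorem eq_or_neg_of_det {w w' : P} (h : ‖w‖ = 1) (h' : ‖w'‖ = 1) (hd : det2 w w' = 0) :
    w' = w ∨ w' = -w := by
  obtain ⟨a, rfl⟩ := GCross_smul h hd
  rw [norm_smul, h, mul_one, Real.norm_eq_abs] at h'
  rcases eq_or_eq_neg_of_abs_eq h' with h1 | h1
  · left
    rw [h1, one_smul]
  · right
    rw [h1, neg_one_smul]

private lemma GCross_cont {f g : ℕ → P} {a b : P} (hf : Tendsto f (U : Filter ℕ) (𝓝 a))
    (hg : Tendsto g (U : Filter ℕ) (𝓝 b)) :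
    Tendsto (fun k => det2 (f k) (g k)) (U : Filter ℕ) (𝓝 (det2 a b)) := by
  have f1 := (continuous_fst.tendsto a).comp hf
  have f2 := (continuous_snd.tendsto a).comp hf
  have g1 := (continuous_fst.tendsto b).comp hg
  have g2 := (continuous_snd.tendsto b).comp hg
  exact (f1.mul g2).sub (f2.mul g1)

private lemma GCross_meet {a b v : P} (h : det2 a b ≠ 0) :
    (det2 v b / det2 a b) • a = v + (det2 v a / det2 a b) • b := by
  apply Prod.ext
  · simp only [Prod.smul_fst, Prod.fst_add, smul_eq_mul]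
    rw [div_mul_eq_mul_div, div_mul_eq_mul_div, div_eq_iff h, add_mul, div_mul_cancel₀ _ h]
    unfold det2
    ring
  · simp only [Prod.smul_snd, Prod.snd_add, smul_eq_mul]
    rw [div_mul_eq_mul_div, div_mul_eq_mul_div, div_eq_iff h, add_mul, div_mul_cancel₀ _ h]
    unfold det2
    ring

private lemma GCross_line {e : Fin n × Fin n} {k : ℕ} {z : P}
    (hz : z ∈ segment ℝ (p k e.1) (p k e.2)) (s : ℝ) :
    ∃ t : ℝ, z + s • dk p e k = p k e.1 + t • (p k e.2 - p k e.1) := by
  rw [segment_eq_image'] at hz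
  obtain ⟨θ, -, rfl⟩ := hz
  refine ⟨θ + s * ‖p k e.2 - p k e.1‖⁻¹, ?_⟩
  unfold dk
  rw [add_smul, mul_smul, add_assoc]

theorem dir_par (h : ∀ k, SLG (p k) E) {e f : Fin n × Fin n} (he : e ∈ E) (hf : f ∈ E) {y : P}
    (h1 : y ∈ ELim U p x e) (h2 : y ∈ ELim U p x f) (hV : y ∉ VLim U p x) :
    dL U p f = dL U p e ∨ dL U p f = -dL U p e := by
  by_cases hef : e = f
  · left
    rw [hef]
  have hne : ∀ k, p k e.1 ≠ p k e.2 := fun k => (h k).ne he
  have hnf : ∀ k, p k f.1 ≠ p k f.2 := fun k => (h k).ne hf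
  obtain ⟨ne, te⟩ := dL_spec (U := U) hne
  obtain ⟨nf, tf⟩ := dL_spec (U := U) hnf
  refine eq_or_neg_of_det ne nf ?_
  by_contra hd
  obtain ⟨z, hz, hzt⟩ := mem_ELim_iff.1 h1
  obtain ⟨z', hz', hzt'⟩ := mem_ELim_iff.1 h2
  obtain ⟨r, hr, hE, -⟩ := ELim_line hne h1 hV
  obtain ⟨r', hr', hF, -⟩ := ELim_line hnf h2 hV
  have tD := GCross_cont te tf
  have tv : Tendsto (fun k => z' k - z k) (U : Filter ℕ) (𝓝 0) := by
    have := hzt'.sub hzt
    rw [sub_self] at this
    refine this.congr fun k => ?_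
    abel
  have ts : Tendsto (fun k => det2 (z' k - z k) (dk p f k) / det2 (dk p e k) (dk p f k))
      (U : Filter ℕ) (𝓝 0) := by
    have := (GCross_cont tv tf).div tD hd
    have h0 : det2 (0 : P) (dL U p f) / det2 (dL U p e) (dL U p f) = 0 := by
      simp [det2]
    rwa [h0] at this
  have tw : Tendsto (fun k => z k + (det2 (z' k - z k) (dk p f k) / det2 (dk p e k) (dk p f k)) •
      dk p e k - x k) (U : Filter ℕ) (𝓝 y) := by
    have := hzt.add (ts.smul te)
    rw [zero_smul, add_zero] at this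
    refine this.congr fun k => ?_
    abel
  have hfalse : ∀ᶠ k in (U : Filter ℕ), False := by
    filter_upwards [hE, hF, tD.eventually_ne hd, Metric.tendsto_nhds.1 tw r hr,
      Metric.tendsto_nhds.1 tw r' hr'] with k hE hF hD d1 d2
    have hm := GCross_meet (v := z' k - z k) hD
    have hw : z k + (det2 (z' k - z k) (dk p f k) / det2 (dk p e k) (dk p f k)) • dk p e k =
        z' k + (det2 (z' k - z k) (dk p e k) / det2 (dk p e k) (dk p f k)) • dk p f k := by
      rw [hm]
      abel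
    obtain ⟨t, ht⟩ := GCross_line (hz k)
      (det2 (z' k - z k) (dk p f k) / det2 (dk p e k) (dk p f k))
    obtain ⟨t', ht'⟩ := GCross_line (hz' k)
      (det2 (z' k - z k) (dk p e k) / det2 (dk p e k) (dk p f k))
    rw [ht] at d1
    rw [hw, ht'] at d2
    have m1 := hE t d1
    have m2 := hF t' d2
    rw [← ht', ← hw, ht] at m2
    exact Set.disjoint_left.1 ((h k).disj e he f hf hef) m1 m2
  exact hfalse.exists.elim fun _ h => h

theorem edge_loc (h : ∀ k, SLG (p k) E) {y : P} (hV : y ∉ VLim U p x) :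
    ∃ r > 0, ∀ z ∈ GLim U p E x, dist z y < r → ∀ e ∈ E,
      (z ∈ ELim U p x e ↔ y ∈ ELim U p x e) := by
  have e1 : ∀ᶠ z in 𝓝 y, z ∉ VLim U p x := isClosed_VLim.isOpen_compl.eventually_mem hV
  have e2 : ∀ᶠ z in 𝓝 y, ∀ f ∈ E, y ∉ ELim U p x f → z ∉ ELim U p x f := by
    rw [Finset.eventually_all]
    intro f _
    by_cases hy : y ∈ ELim U p x f
    · exact Eventually.of_forall fun z hz => absurd hy hz
    · filter_upwards [(isClosed_ELim f).isOpen_compl.eventually_mem hy] with z hz _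
      exact hz
  have e3 : ∀ᶠ z in 𝓝 y, ∀ e ∈ E, y ∈ ELim U p x e →
      ∀ s : ℝ, |s| ≤ ‖z - y‖ → y + s • dL U p e ∈ ELim U p x e := by
    rw [Finset.eventually_all]
    intro e he
    by_cases hy : y ∈ ELim U p x e
    · obtain ⟨r, hr, -, h2⟩ := ELim_line (fun k => (h k).ne he) hy hV
      filter_upwards [Metric.ball_mem_nhds y hr] with z hz _ s hs
      rw [Metric.mem_ball, dist_eq_norm] at hz
      exact h2 s (hs.trans_lt hz)
    · exact Eventually.of_forall fun z hz => absurd hz hy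
  obtain ⟨r, hr, hall⟩ := Metric.eventually_nhds_iff.1 ((e1.and e2).and e3)
  refine ⟨r, hr, fun z hz hzr e he => ⟨fun hze => ?_, fun hye => ?_⟩⟩
  · by_contra hy
    exact (hall hzr).1.2 e he hy hze
  · obtain ⟨⟨a1, a2⟩, a3⟩ := hall hzr
    rcases hz with hz | hz
    · exact absurd hz a1
    · simp only [mem_iUnion, exists_prop] at hz
      obtain ⟨f, hf, hzf⟩ := hz
      have hyf : y ∈ ELim U p x f := by
        by_contra hy
        exact a2 f hf hy hzf
      obtain ⟨s, hs, hzs⟩ := ELim_sub (fun k => (h k).ne hf) hyf hzf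
      rcases dir_par h he hf hye hyf hV with hd | hd
      · rw [hzs, hd]
        exact a3 e he hye s hs.le
      · rw [hzs, hd, smul_neg, ← neg_smul]
        exact a3 e he hye (-s) (by rw [abs_neg]; exact hs.le)

theorem GLim_loc (h : ∀ k, SLG (p k) E) {y : P} (hy : y ∈ GLim U p E x)
    (hV : y ∉ VLim U p x) : ∃ w : P, ‖w‖ = 1 ∧ ∃ r > 0, ∀ z, dist z y < r →
      (z ∈ GLim U p E x ↔ ∃ s : ℝ, z = y + s • w) := by
  rcases hy with hy | hy
  · exact absurd hy hV
  simp only [mem_iUnion, exists_prop] at hy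
  obtain ⟨e, he, hye⟩ := hy
  have hne : ∀ k, p k e.1 ≠ p k e.2 := fun k => (h k).ne he
  have hw : ‖dL U p e‖ = 1 := (dL_spec (U := U) hne).1
  obtain ⟨r, hr, -, h2⟩ := ELim_line hne hye hV
  obtain ⟨r', hr', h3⟩ := edge_loc h hV
  refine ⟨dL U p e, hw, min r r', lt_min hr hr', fun z hz => ⟨fun hg => ?_, fun hs => ?_⟩⟩
  · have hze := (h3 z hg (hz.trans_le (min_le_right _ _)) e he).2 hye
    obtain ⟨s, -, hs⟩ := ELim_sub hne hye hze
    exact ⟨s, hs⟩
  · obtain ⟨s, rfl⟩ := hs
    have h4 : |s| < r := by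
      have := hz.trans_le (min_le_left _ _)
      rwa [dist_eq_norm, add_sub_cancel_left, norm_smul, hw, mul_one, Real.norm_eq_abs] at this
    refine Or.inr ?_
    simp only [mem_iUnion, exists_prop]
    exact ⟨e, he, h2 s h4⟩

end Pool.Agent.MP4eed4eX
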