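import Pool.Agent.Lib.MP_4eed4e_an_XG.GMapA
import Pool.Agent.Lib.MP_4eed4e_an_XG.GCross

set_option autoImplicit false

/-!
Project X, block MG, module GMapB: the map which moves the limit graph into the graph (M10).

* `ext_clamp`: extend the two coordinates of `v` from `S` to `P` (`LipschitzOnWith.extend_real`),
  then clamp them to `[-κ, κ]` (`max (-κ) (min κ ·)` is 1-Lipschitz). The norm of `P` is the maximum
  of the coordinates.
* `near_map'`: let `S` be the set of the `y ∈ GLim` with `‖y‖ ≤ R` and `r ≤ dist y z` for all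
  `z ∈ VLim`: compact (`isClosed_GLim'`), disjoint from `VLim` (`hr`). By `edge_loc` and the
  Lebesgue
  number lemma (`lebesgue_number_lemma_of_metric`) there is `d > 0` such that
  `y, y' ∈ S`, `dist y y' < d` implies `y ∈ ELim e ↔ y' ∈ ELim e` for all `e ∈ E`. For `y ∈ S` the
  finite set `es y = {e ∈ E | y ∈ ELim e}` is nonempty; choose an element `e y` which depends only
  on
  the set `es y` (e.g. a choice function on `Finset (Fin n × Fin n)`). Let `v^e` be the maps of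
  `edge_map` and `κ' = min κ (κ * d / 2)`. Eventually all `v^e k`, `e ∈ E`, are `κ'`-Lipschitz,
  bounded by `κ'` on the ball of radius `R`, and move the points of `S ∩ ELim e` into the edges.
  Put `v y = v^{e y} k y` on `S`. For `y, y' ∈ S`: `dist y y' < d` gives `e y = e y'` and
  `‖v y - v y'‖ ≤ κ' dist y y'`; otherwise `‖v y - v y'‖ ≤ 2 κ' ≤ κ d ≤ κ dist y y'`. Extend with
  `ext_clamp`. The segments of the edges are contained in `Gr (p k) E`.
-/

namespace Pool.Agent.MP4eed4eX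

open MeasureTheory Set Filter Topology Pool.Agent.MP4eed4eP

variable {n : ℕ} {U : Ultrafilter ℕ} {p : ℕ → Fin n → P} {E : Finset (Fin n × Fin n)}

theorem ext_clamp {S : Set P} {v : P → P} {κ : ℝ} (hκ : 0 < κ)
    (hv : LipschitzOnWith κ.toNNReal v S) (hb : ∀ y ∈ S, ‖v y‖ ≤ κ) :
    ∃ v' : P → P, LipschitzWith κ.toNNReal v' ∧ (∀ y, ‖v' y‖ ≤ κ) ∧ ∀ y ∈ S, v' y = v y := by
  have hv1 : LipschitzOnWith κ.toNNReal (fun y => (v y).1) S := by
    refine LipschitzOnWith.of_dist_le_mul fun y hy y' hy' => ?_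
    exact (le_max_left _ _).trans (hv.dist_le_mul y hy y' hy')
  have hv2 : LipschitzOnWith κ.toNNReal (fun y => (v y).2) S := by
    refine LipschitzOnWith.of_dist_le_mul fun y hy y' hy' => ?_
    exact (le_max_right _ _).trans (hv.dist_le_mul y hy y' hy')
  obtain ⟨f, hf, hfe⟩ := hv1.extend_real
  obtain ⟨g, hg, hge⟩ := hv2.extend_real
  have hcl : ∀ t : ℝ, |max (-κ) (min κ t)| ≤ κ := by
    intro t
    rw [abs_le]
    exact ⟨le_max_left _ _, max_le (by linarith) (min_le_left _ _)⟩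
  have hid : ∀ t : ℝ, |t| ≤ κ → max (-κ) (min κ t) = t := by
    intro t ht
    rw [min_eq_right (abs_le.1 ht).2, max_eq_right (abs_le.1 ht).1]
  refine ⟨fun y => (max (-κ) (min κ (f y)), max (-κ) (min κ (g y))), ?_, fun y => ?_,
    fun y hy => ?_⟩
  · have h1 := ((hf.const_min κ).const_max (-κ)).prodMk ((hg.const_min κ).const_max (-κ))
    rwa [max_self] at h1
  · rw [Prod.norm_def]
    exact max_le (hcl _) (hcl _)
  · have h1 := hb y hy
    rw [Prod.norm_def] at h1
    refine Prod.ext ?_ ?_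
    · show max (-κ) (min κ (f y)) = (v y).1
      rw [← hfe hy]
      exact hid _ ((le_max_left _ _).trans h1)
    · show max (-κ) (min κ (g y)) = (v y).2
      rw [← hge hy]
      exact hid _ ((le_max_right _ _).trans h1)

theorem near_map' (h : ∀ k, SLG (p k) E) (x : ℕ → P) (R : ℝ) {r κ : ℝ} (hr : 0 < r)
    (hκ : 0 < κ) :
    ∀ᶠ k in (U : Filter ℕ), ∃ v : P → P, LipschitzWith κ.toNNReal v ∧ (∀ y, ‖v y‖ ≤ κ) ∧
      ∀ y ∈ GLim U p E x, ‖y‖ ≤ R → (∀ z ∈ VLim U p x, r ≤ dist y z) →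
        x k + (y + v y) ∈ Gr (p k) E := by
  classical
  set S : Set P := {y | y ∈ GLim U p E x ∧ ‖y‖ ≤ R ∧ ∀ z ∈ VLim U p x, r ≤ dist y z} with hS
  have hSV : ∀ y ∈ S, y ∉ VLim U p x := by
    intro y hy hyV
    have h1 := hy.2.2 y hyV
    rw [dist_self] at h1
    exact absurd h1 (not_le.2 hr)
  have hSc : IsCompact S := by
    refine Metric.isCompact_of_isClosed_isBounded ?_ ?_
    · have h1 : S = GLim U p E x ∩ ({y : P | ‖y‖ ≤ R} ∩
          ⋂ z ∈ VLim U p x, {y : P | r ≤ dist y z}) := by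
        ext y
        simp only [hS, mem_ofPred_eq, mem_inter_iff, mem_iInter]
      rw [h1]
      refine isClosed_GLim'.inter ((isClosed_le continuous_norm continuous_const).inter ?_)
      exact isClosed_biInter fun z _ =>
        isClosed_le continuous_const (continuous_id.dist continuous_const)
    · refine (Metric.isBounded_closedBall (x := (0 : P)) (r := R)).subset fun y hy => ?_
      rw [Metric.mem_closedBall, dist_zero_right]
      exact hy.2.1
  have hloc : ∀ i : S, ∃ ρ : ℝ, 0 < ρ ∧ ∀ z ∈ GLim U p E x, dist z i < ρ → ∀ e ∈ E,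
      (z ∈ ELim U p x e ↔ (i : P) ∈ ELim U p x e) := by
    intro i
    obtain ⟨ρ, hρ, h1⟩ := edge_loc h (hSV i i.2)
    exact ⟨ρ, hρ, h1⟩
  choose ρ hρ hloc using hloc
  obtain ⟨d, hd, hleb⟩ := lebesgue_number_lemma_of_metric
    (c := fun i : S => Metric.ball (i : P) (ρ i)) hSc (fun i => Metric.isOpen_ball)
    (fun y hy => mem_iUnion.2 ⟨⟨y, hy⟩, Metric.mem_ball_self (hρ _)⟩)
  have hsame : ∀ y ∈ S, ∀ y' ∈ S, dist y y' < d → ∀ e ∈ E,
      (y ∈ ELim U p x e ↔ y' ∈ ELim U p x e) := by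
    intro y hy y' hy' hyy e he
    obtain ⟨i, hi⟩ := hleb y hy
    have h1 := hloc i y hy.1 (hi (Metric.mem_ball_self hd)) e he
    have h2 := hloc i y' hy'.1 (hi (by rw [Metric.mem_ball, dist_comm]; exact hyy)) e he
    exact h1.trans h2.symm
  have hmap : ∀ e : Fin n × Fin n, ∃ v : ℕ → P → P, e ∈ E →
      (∀ κ : ℝ, 0 < κ → ∀ᶠ k in (U : Filter ℕ), LipschitzWith κ.toNNReal (v k) ∧
        ∀ y, ‖y‖ ≤ R → ‖v k y‖ ≤ κ) ∧
      ∀ᶠ k in (U : Filter ℕ), ∀ y ∈ ELim U p x e, ‖y‖ ≤ R → (∀ z ∈ VLim U p x, r ≤ dist y z) →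
        x k + (y + v k y) ∈ segment ℝ (p k e.1) (p k e.2) := by
    intro e
    by_cases he : e ∈ E
    · obtain ⟨v, h1, h2⟩ := edge_map (U := U) (fun k => (h k).ne he) x R hr
      exact ⟨v, fun _ => ⟨h1, h2⟩⟩
    · exact ⟨fun _ _ => 0, fun h1 => absurd h1 he⟩
  choose v hv using hmap
  have hκ' : 0 < min κ (κ * d / 2) := lt_min hκ (by positivity)
  set κ' : ℝ := min κ (κ * d / 2) with hκ'def
  have hev1 : ∀ᶠ k in (U : Filter ℕ), ∀ e ∈ E, LipschitzWith κ'.toNNReal (v e k) ∧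
      ∀ y, ‖y‖ ≤ R → ‖v e k y‖ ≤ κ' :=
    (Filter.eventually_all_finset E).2 fun e he => (hv e he).1 κ' hκ'
  have hev2 : ∀ᶠ k in (U : Filter ℕ), ∀ e ∈ E, ∀ y ∈ ELim U p x e, ‖y‖ ≤ R →
      (∀ z ∈ VLim U p x, r ≤ dist y z) →
        x k + (y + v e k y) ∈ segment ℝ (p k e.1) (p k e.2) :=
    (Filter.eventually_all_finset E).2 fun e he => (hv e he).2
  filter_upwards [hev1, hev2] with k hk1 hk2
  set es : P → Finset (Fin n × Fin n) := fun y => E.filter fun e => y ∈ ELim U p x e with hes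
  have hne : ∀ y ∈ S, (es y).Nonempty := by
    intro y hy
    rcases hy.1 with h1 | h1
    · exact absurd h1 (hSV y hy)
    · obtain ⟨e, he, hye⟩ := mem_iUnion₂.1 h1
      exact ⟨e, Finset.mem_filter.2 ⟨he, hye⟩⟩
  set W : Finset (Fin n × Fin n) → P → P := fun s y =>
    if hs : s.Nonempty then v hs.choose k y else 0 with hW
  have hWe : ∀ y ∈ S, ∃ e ∈ E, y ∈ ELim U p x e ∧ W (es y) = v e k := by
    intro y hy
    have h1 := (hne y hy).choose_spec
    refine ⟨(hne y hy).choose, (Finset.mem_filter.1 h1).1, (Finset.mem_filter.1 h1).2, ?_⟩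
    funext z
    simp only [hW]
    rw [dif_pos (hne y hy)]
  have hbd : ∀ y ∈ S, ‖W (es y) y‖ ≤ κ' := by
    intro y hy
    obtain ⟨e, he, -, h1⟩ := hWe y hy
    rw [h1]
    exact (hk1 e he).2 y hy.2.1
  have hlip : LipschitzOnWith κ.toNNReal (fun y => W (es y) y) S := by
    refine LipschitzOnWith.of_dist_le_mul fun y hy y' hy' => ?_
    rw [Real.coe_toNNReal κ hκ.le]
    by_cases hyy : dist y y' < d
    · have h1 : es y = es y' :=
        Finset.filter_congr fun e he => hsame y hy y' hy' hyy e he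
      obtain ⟨e, he, -, h2⟩ := hWe y hy
      show dist (W (es y) y) (W (es y') y') ≤ κ * dist y y'
      rw [← h1, h2]
      have h3 := (hk1 e he).1.dist_le_mul y y'
      rw [Real.coe_toNNReal κ' hκ'.le] at h3
      exact h3.trans (mul_le_mul_of_nonneg_right (min_le_left _ _) dist_nonneg)
    · have h1 := hbd y hy
      have h2 := hbd y' hy'
      have h3 : κ' ≤ κ * d / 2 := min_le_right _ _
      have h4 : κ * d ≤ κ * dist y y' := mul_le_mul_of_nonneg_left (not_lt.1 hyy) hκ.le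
      have h5 := dist_le_norm_add_norm (W (es y) y) (W (es y') y')
      show dist (W (es y) y) (W (es y') y') ≤ κ * dist y y'
      linarith
  obtain ⟨v', hv'1, hv'2, hv'3⟩ := ext_clamp hκ hlip
    fun y hy => (hbd y hy).trans (min_le_left _ _)
  refine ⟨v', hv'1, hv'2, fun y hy hyR hyr => ?_⟩
  have hyS : y ∈ S := ⟨hy, hyR, hyr⟩
  rw [hv'3 y hyS]
  obtain ⟨e, he, hye, h1⟩ := hWe y hyS
  show x k + (y + W (es y) y) ∈ Gr (p k) E
  rw [h1]
  exact Or.inr (mem_iUnion₂.2 ⟨e, he, hk2 e he y hye hyR hyr⟩)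

end Pool.Agent.MP4eed4eX
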