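import Pool.Agent.Lib.MP_4eed4e_an_XG.GDir

set_option autoImplicit false

/-!
Project X, block MG, module GOpn: the limit of the open sets.

* `sub_or_disj`: a preconnected set `B` with `B ∩ frontier D = ∅` is contained in `D` or disjoint
  from it (`IsPreconnected.inter_frontier_nonempty` or similar in Mathlib: if `B` meets `D` and
  `Dᶜ` then it meets `frontier D`).
* `isOpen_OLim'`: `r / 2`. `OLim_compact'`: cover `K` by the balls of radius `r_y` about `y ∈ K`
  (open cover, finite subcover, `IsCompact.elim_nhds_subcover`), finite intersection of eventual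
  statements.
* `Sys.dich`: `r` from `notMem_GLim`; eventually the set `{x k + z | dist z y < r}` (convex,
  preconnected) is disjoint from `Gr (p k) E = frontier (D k)`, so it is contained in `D k` or
  disjoint from `D k` (`sub_or_disj`); for an ultrafilter one of the two holds eventually
  (`Ultrafilter.eventually_or`).
* `Sys.out_compact'`: as `OLim_compact'`, with the second alternative of `Sys.dich` (the first one
  says `y ∈ OLim`).
* `Sys.disj'`: `y ∈ OLim`, `y ∈ GLim`: eventually the ball about `x k + y` is in `D k` (open, so it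
  is disjoint from `frontier (D k) = Gr (p k) E`), but eventually there is a point of `Gr (p k) E`
  in it.
* `Sys.frontier_OLim'`: `y ∉ GLim`: first alternative of `Sys.dich`: `y ∈ OLim`, which is open;
  second: no point of the ball about `y` of radius `r` is in `OLim`. In both cases
  `y ∉ frontier`.
* `Sys.null_GLim'`: `VLim` is finite; every `ELim e` is empty or contained in a line
  `{y + s • w}` (`ELim_sub`), a null set (proper affine subspace, `Measure.addHaar_affineSubspace`,
  or as in the private lemma `DVar_line` in `_PD/DVar.lean`).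
-/

namespace Pool.Agent.MP4eed4eX

open MeasureTheory Set Filter Topology Pool.Agent.MP4eed4eP

variable {n : ℕ} {U : Ultrafilter ℕ} {D : ℕ → Set P} {p : ℕ → Fin n → P}
  {E : Finset (Fin n × Fin n)} {l : ℕ → ℝ} {x : ℕ → P}

theorem sub_or_disj {A B : Set P} (hB : IsPreconnected B) (h : Disjoint B (frontier A)) :
    B ⊆ A ∨ Disjoint B A := by
  have hsub : B ⊆ interior A ∪ (closure A)ᶜ := by
    intro b hb
    by_cases h1 : b ∈ interior A
    · exact Or.inl h1
    · refine Or.inr fun h2 => ?_
      exact Set.disjoint_left.mp h hb ⟨h2, h1⟩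
  have hdis : Disjoint (interior A) (closure A)ᶜ :=
    Set.disjoint_left.mpr fun b hb hb2 => hb2 (subset_closure (interior_subset hb))
  rcases hB.subset_or_subset isOpen_interior isClosed_closure.isOpen_compl hdis hsub with h1 | h1
  · exact Or.inl (h1.trans interior_subset)
  · exact Or.inr (Set.disjoint_left.mpr fun b hb hb2 => h1 hb (subset_closure hb2))

theorem isOpen_OLim' : IsOpen (OLim U D x) := by
  rw [Metric.isOpen_iff]
  rintro y ⟨r, hr, hy⟩
  refine ⟨r / 2, by positivity, fun y' hy' => ⟨r / 2, by positivity, ?_⟩⟩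
  rw [Metric.mem_ball] at hy'
  filter_upwards [hy] with k hk z hz
  exact hk z (by linarith [dist_triangle z y' y])

private theorem GOpn_cpt {K : Set P} (hK : IsCompact K) (Q : ℕ → P → Prop)
    (h : ∀ y ∈ K, ∃ r > 0, ∀ᶠ k in (U : Filter ℕ), ∀ z, dist z y < r → Q k z) :
    ∀ᶠ k in (U : Filter ℕ), ∀ z ∈ K, Q k z := by
  choose! r hr hQ using h
  obtain ⟨t, htK, hcov⟩ := hK.elim_nhds_subcover (fun y => Metric.ball y (r y))
    (fun y hy => Metric.ball_mem_nhds y (hr y hy))
  have h1 : ∀ᶠ k in (U : Filter ℕ), ∀ y ∈ t, ∀ z, dist z y < r y → Q k z := by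
    rw [Filter.eventually_all_finset]
    exact fun y hy => hQ y (htK y hy)
  filter_upwards [h1] with k hk z hz
  obtain ⟨y, hy, hzy⟩ := mem_iUnion₂.1 (hcov hz)
  exact hk y hy z hzy

theorem OLim_compact' {K : Set P} (hK : IsCompact K) (h : K ⊆ OLim U D x) :
    ∀ᶠ k in (U : Filter ℕ), ∀ z ∈ K, x k + z ∈ D k :=
  GOpn_cpt hK (fun k z => x k + z ∈ D k) fun _ hy => h hy

theorem Sys.dich (h : Sys U D p E l) {y : P} (hy : y ∉ GLim U p E x) :
    (∃ r > 0, ∀ᶠ k in (U : Filter ℕ), ∀ z, dist z y < r → x k + z ∈ D k) ∨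
      ∃ r > 0, ∀ᶠ k in (U : Filter ℕ), ∀ z, dist z y < r → x k + z ∉ D k := by
  obtain ⟨r, hr, hk⟩ := notMem_GLim hy
  have h1 : ∀ᶠ k in (U : Filter ℕ), (∀ z, dist z y < r → x k + z ∈ D k) ∨
      ∀ z, dist z y < r → x k + z ∉ D k := by
    filter_upwards [hk] with k hk
    have hpre : IsPreconnected (Metric.ball (x k + y) r) := (convex_ball _ _).isPreconnected
    have hmem : ∀ z, dist z y < r → x k + z ∈ Metric.ball (x k + y) r := by
      intro z hz
      rw [Metric.mem_ball, dist_add_left]
      exact hz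
    have hdis : Disjoint (Metric.ball (x k + y) r) (frontier (D k)) := by
      rw [Set.disjoint_left]
      intro w hw hw2
      rw [(h.fig k).fr] at hw2
      rw [Metric.mem_ball] at hw
      have e : x k + (w - x k) = w := by abel
      refine hk (w - x k) ?_ (by rw [e]; exact hw2)
      rwa [← dist_add_left (x k), e]
    rcases sub_or_disj hpre hdis with h2 | h2
    · exact Or.inl fun z hz => h2 (hmem z hz)
    · exact Or.inr fun z hz hz2 => Set.disjoint_left.mp h2 (hmem z hz) hz2
  rw [Ultrafilter.eventually_or] at h1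
  rcases h1 with h1 | h1
  · exact Or.inl ⟨r, hr, h1⟩
  · exact Or.inr ⟨r, hr, h1⟩

theorem Sys.out_compact' (h : Sys U D p E l) {K : Set P} (hK : IsCompact K)
    (h1 : Disjoint K (OLim U D x)) (h2 : Disjoint K (GLim U p E x)) :
    ∀ᶠ k in (U : Filter ℕ), ∀ z ∈ K, x k + z ∉ D k := by
  refine GOpn_cpt hK (fun k z => x k + z ∉ D k) fun y hy => ?_
  rcases h.dich (x := x) (Set.disjoint_left.mp h2 hy) with h3 | h3
  · exact absurd h3 (Set.disjoint_left.mp h1 hy)
  · exact h3

theorem Sys.disj' (h : Sys U D p E l) : Disjoint (OLim U D x) (GLim U p E x) := by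
  rw [Set.disjoint_left]
  rintro y ⟨r, hr, hy⟩ hG
  have hno : ∀ k w, w ∈ D k → w ∉ Gr (p k) E := by
    intro k w hw hw2
    rw [← (h.fig k).fr] at hw2
    exact Set.disjoint_left.mp (disjoint_frontier_iff_isOpen.2 (h.fig k).op) hw2 hw
  have e : ∀ k (w : P), x k + (w - x k) = w := fun k w => by abel
  rcases hG with ⟨i, hi⟩ | hG
  · have h1 : ∀ᶠ k in (U : Filter ℕ), dist (p k i - x k) y < r := by
      have := hi (Metric.ball_mem_nhds y hr)
      exact this
    obtain ⟨k, hk1, hk2⟩ := (hy.and h1).exists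
    have h2 := hk1 _ hk2
    rw [e] at h2
    exact hno k _ h2 (Or.inl ⟨i, rfl⟩)
  · obtain ⟨f, hf, hyf⟩ := mem_iUnion₂.1 hG
    obtain ⟨k, hk1, z, hz, hzd⟩ := (hy.and (hyf r hr)).exists
    have h2 := hk1 _ hzd
    rw [e] at h2
    exact hno k _ h2 (Or.inr (mem_iUnion₂.2 ⟨f, hf, hz⟩))

theorem Sys.frontier_OLim' (h : Sys U D p E l) :
    frontier (OLim U D x) ⊆ GLim U p E x := by
  intro y hy
  by_contra hG
  rcases h.dich hG with h1 | ⟨r, hr, h1⟩
  · have hyO : y ∈ OLim U D x := h1
    exact Set.disjoint_left.mp (disjoint_frontier_iff_isOpen.2 isOpen_OLim') hy hyO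
  · obtain ⟨y', hy', hd⟩ := Metric.mem_closure_iff.1 hy.1 r hr
    obtain ⟨r', hr', h2⟩ := hy'
    obtain ⟨k, hk1, hk2⟩ := (h1.and h2).exists
    refine hk1 y' (by rwa [dist_comm]) (hk2 y' ?_)
    rw [dist_self]
    exact hr'

private theorem GOpn_line (y w : P) : volume {v : P | ∃ s : ℝ, v = y + s • w} = 0 := by
  have hne : AffineSubspace.mk' y (Submodule.span ℝ {w}) ≠ ⊤ := by
    intro htop
    have h1 : (Submodule.span ℝ {w} : Submodule ℝ P) = ⊤ := by
      have := congrArg AffineSubspace.direction htop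
      rwa [AffineSubspace.direction_mk', AffineSubspace.direction_top] at this
    have h2 : Module.finrank ℝ P ≤ 1 := by
      rw [← finrank_top ℝ P, ← h1]
      exact (finrank_span_le_card ({w} : Set P)).trans (by simp)
    have h3 : Module.finrank ℝ P = 2 := by
      simp [P]
    omega
  have h0 := Measure.addHaar_affineSubspace (volume : Measure P)
    (AffineSubspace.mk' y (Submodule.span ℝ {w})) hne
  refine measure_mono_null ?_ h0
  rintro v ⟨s, rfl⟩
  rw [SetLike.mem_coe, AffineSubspace.mem_mk', vsub_eq_sub, add_sub_cancel_left]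
  exact Submodule.smul_mem _ _ (Submodule.mem_span_singleton_self w)

theorem Sys.null_GLim' (h : Sys U D p E l) : volume (GLim U p E x) = 0 := by
  refine measure_union_null (finite_VLim'.measure_zero _) ?_
  refine (measure_biUnion_null_iff (Finset.countable_toSet E)).2 fun e he => ?_
  have hne : ∀ k, p k e.1 ≠ p k e.2 := fun k hk =>
    ((h.fig k).slg.lt e (Finset.mem_coe.1 he)).ne ((h.fig k).slg.inj hk)
  rcases (ELim U p x e).eq_empty_or_nonempty with h0 | ⟨y, hy⟩
  · rw [h0, measure_empty]
  · refine measure_mono_null ?_ (GOpn_line y (dL U p e))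
    intro y' hy'
    obtain ⟨s, -, hs⟩ := ELim_sub hne hy hy'
    exact ⟨s, hs⟩

end Pool.Agent.MP4eed4eX
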