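import Pool.Agent.Lib.MP_4eed4e_an_XG.GCell
import Pool.Agent.Lib.MP_4eed4e_an_XG.GOpn
import Pool.Agent.Lib.MP_4eed4e_an_PG.GClose

set_option autoImplicit false

/-!
Project X, block MG, module GBdd: the limit sets are bounded (M1, M3).

* `Sys.no_balls`: suppose there are `c`, `δ`. For every `M` the compact set
  `⋃ i < M + 1, closedBall (c i) δ` is contained in `OLim`, so (`OLim_compact'`) for `U`-most `k`
  the disjoint balls `closedBall (x k + c i) δ` are contained in `D k`, so
  `PG.HasBalls (D k) (M + 1) δ` and `lamL (D k) (M + 1) ≤ 32 / δ ^ 2` (`PG.lamL_balls`). The limit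
  along `U` (`h.lim`, `h.ult`) gives `l (M + 1) ≤ 32 / δ ^ 2` for all `M`, against `h.inf`.
* `Sys.lines`: the lines of the nonempty `ELim e` (`ELim_sub`: `y' = y + s • dL`,
  `det2 (dL) (y' - y) = 0`) and the lines through the points of the finite set `VLim` with the
  direction `(0, 1)`.
* `Sys.bdd_OLim'`: `unbdd_balls` with `G = GLim` (`Sys.disj'`, `Sys.frontier_OLim'`) and
  `Sys.no_balls`.
-/

namespace Pool.Agent.MP4eed4eX

open MeasureTheory Set Filter Topology Pool.Agent.MP4eed4eP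

variable {n : ℕ} {U : Ultrafilter ℕ} {D : ℕ → Set P} {p : ℕ → Fin n → P}
  {E : Finset (Fin n × Fin n)} {l : ℕ → ℝ} {x : ℕ → P}

theorem Sys.no_balls (h : Sys U D p E l) {δ : ℝ} (hδ : 0 < δ) (c : ℕ → P)
    (h1 : ∀ i, Metric.closedBall (c i) δ ⊆ OLim U D x)
    (h2 : ∀ i j, i ≠ j → Disjoint (Metric.closedBall (c i) δ) (Metric.closedBall (c j) δ)) :
    False := by
  have h3 : ∀ M : ℕ, l (M + 1) ≤ 32 / δ ^ 2 := by
    intro M
    have hK : IsCompact (⋃ i ∈ Finset.range (M + 1), Metric.closedBall (c i) δ) :=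
      (Finset.range (M + 1)).isCompact_biUnion fun i _ => isCompact_closedBall _ _
    have hs : (⋃ i ∈ Finset.range (M + 1), Metric.closedBall (c i) δ) ⊆ OLim U D x :=
      iUnion₂_subset fun i _ => h1 i
    have h4 : ∀ᶠ k in (U : Filter ℕ), lamL (D k) (M + 1) ≤ 32 / δ ^ 2 := by
      filter_upwards [OLim_compact' hK hs] with k hk
      refine PG.lamL_balls hδ ⟨fun i => x k + c i, fun i z hz => ?_, fun i j hij => ?_⟩
      · have e : x k + (z - x k) = z := by abel
        rw [← e]
        refine hk _ (mem_iUnion₂.2 ⟨(i : ℕ), Finset.mem_range.2 i.2, ?_⟩)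
        rw [Metric.mem_closedBall] at hz ⊢
        rwa [← dist_add_left (x k), e]
      · rw [Set.disjoint_left]
        intro z hz hz'
        have e : x k + (z - x k) = z := by abel
        rw [Metric.mem_closedBall] at hz hz'
        have h5 := Set.disjoint_left.mp (h2 i j fun h0 => hij (Fin.ext h0))
        refine @h5 (z - x k) ?_ ?_
        · rw [Metric.mem_closedBall, ← dist_add_left (x k), e]
          exact hz
        · rw [Metric.mem_closedBall, ← dist_add_left (x k), e]
          exact hz'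
    exact le_of_tendsto ((h.lim (M + 1)).mono_left h.ult) h4
  obtain ⟨N, hN⟩ := (h.inf.eventually_gt_atTop (32 / δ ^ 2)).exists_forall_of_atTop
  exact absurd (hN (N + 1) (Nat.le_succ N)) (not_lt.2 (h3 N))

theorem Sys.lines (h : Sys U D p E l) : ∃ S : Finset (P × P), (∀ g ∈ S, g.1 ≠ 0) ∧
    ∀ y ∈ GLim U p E x, ∃ g ∈ S, det2 g.1 (y - g.2) = 0 := by
  classical
  have hne : ∀ e ∈ E, ∀ k, p k e.1 ≠ p k e.2 := fun e he k hk =>
    ((h.fig k).slg.lt e he).ne ((h.fig k).slg.inj hk)
  refine ⟨(E.image fun e => (dL U p e, Classical.epsilon fun y => y ∈ ELim U p x e)) ∪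
    (finite_VLim' (U := U) (p := p) (x := x)).toFinset.image fun y => (((0 : ℝ), (1 : ℝ)), y),
    fun g hg => ?_, fun y hy => ?_⟩
  · rcases Finset.mem_union.1 hg with hg | hg
    · obtain ⟨e, he, rfl⟩ := Finset.mem_image.1 hg
      intro h0
      have h1 := (dL_spec (U := U) (hne e he)).1
      rw [show dL U p e = 0 from h0, norm_zero] at h1
      exact zero_ne_one h1
    · obtain ⟨y, -, rfl⟩ := Finset.mem_image.1 hg
      intro h0
      exact one_ne_zero (congrArg Prod.snd h0)
  · rcases hy with hy | hy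
    · refine ⟨(((0 : ℝ), (1 : ℝ)), y), Finset.mem_union_right _ (Finset.mem_image.2
        ⟨y, (Set.Finite.mem_toFinset _).2 hy, rfl⟩), ?_⟩
      simp [det2]
    · obtain ⟨e, he, hye⟩ := mem_iUnion₂.1 hy
      refine ⟨_, Finset.mem_union_left _ (Finset.mem_image.2 ⟨e, he, rfl⟩), ?_⟩
      have h1 : (Classical.epsilon fun y => y ∈ ELim U p x e) ∈ ELim U p x e :=
        Classical.epsilon_spec (p := fun y => y ∈ ELim U p x e) ⟨y, hye⟩
      obtain ⟨s, -, hs⟩ := ELim_sub (hne e he) h1 hye
      have h2 : y - (Classical.epsilon fun y => y ∈ ELim U p x e) = s • dL U p e :=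
        sub_eq_of_eq_add' hs
      show det2 (dL U p e) (y - Classical.epsilon fun y => y ∈ ELim U p x e) = 0
      rw [h2]
      simp only [det2, Prod.smul_fst, Prod.smul_snd, smul_eq_mul]
      ring

theorem Sys.bdd_OLim' (h : Sys U D p E l) : Bornology.IsBounded (OLim U D x) := by
  by_contra hu
  obtain ⟨S, hS0, hS⟩ := h.lines (x := x)
  obtain ⟨δ, hδ, c, h1, h2⟩ := unbdd_balls isOpen_OLim' h.disj' h.frontier_OLim' S hS0 hS hu
  exact h.no_balls hδ c h1 h2

end Pool.Agent.MP4eed4eX
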