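import Pool.Agent.Lib.MP_4eed4e_an_XG.GRay
import Pool.Agent.Lib.MP_4eed4e_an_XG.GBdd

set_option autoImplicit false

/-!
Project X, block MG, module GThin: far from the vertices the sets are thin (M6).

Proof of `Sys.thin'`. Suppose not. Then (`Ultrafilter.eventually_not`) for every natural number `j`
the set `A j = {k | ∃ x, (∀ i, (j : ℝ) ≤ dist x (p k i)) ∧ ball x δ ⊆ D k}` is in `U`; `A` is
antitone. Let `J k = Nat.findGreatest (fun j => k ∈ A j) k` and let `x k` be a point as in the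
definition of `A (J k)` (arbitrary if there is none). For every `j`: for `U`-most `k` we have
`k ∈ A j` and `j ≤ k` (`h.ult`), so `J k ≥ j` and `(j : ℝ) ≤ dist (x k) (p k i)` for all `i`; and
`ball (x k) δ ⊆ D k`. Hence `VLim U p x = ∅` (a convergent sequence is eventually bounded),
`0 ∈ OLim U D x`. `O = OLim U D x` is open (`isOpen_OLim'`), bounded (`Sys.bdd_OLim'`), nonempty, so
its frontier is nonempty (otherwise it is clopen, so it is the whole plane, which is not bounded)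
and compact. For `y` in the frontier `Sys.loc` (with `VLim = ∅`) gives `w`, `r`, and `ray` gives a
point of `VLim = ∅`. Contradiction.
-/

namespace Pool.Agent.MP4eed4eX

open MeasureTheory Set Filter Topology Pool.Agent.MP4eed4eP

variable {n : ℕ} {U : Ultrafilter ℕ} {D : ℕ → Set P} {p : ℕ → Fin n → P}
  {E : Finset (Fin n × Fin n)} {l : ℕ → ℝ}

/-- Far points in thick parts, chosen for all radii at the same time. -/
private theorem GThin_pts (hU : (U : Filter ℕ) ≤ atTop) {δ : ℝ}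
    (hA : ∀ j : ℕ, ∀ᶠ k in (U : Filter ℕ), ∃ x, (∀ i, (j : ℝ) ≤ dist x (p k i)) ∧
      Metric.ball x δ ⊆ D k) :
    ∃ x : ℕ → P, ∀ j : ℕ, ∀ᶠ k in (U : Filter ℕ), (∀ i, (j : ℝ) ≤ dist (x k) (p k i)) ∧
      Metric.ball (x k) δ ⊆ D k := by
  classical
  have hx : ∀ k, ∃ x : P, (∃ x, (∀ i, ((Nat.findGreatest (fun j => ∃ x,
      (∀ i, (j : ℝ) ≤ dist x (p k i)) ∧ Metric.ball x δ ⊆ D k) k : ℕ) : ℝ) ≤ dist x (p k i)) ∧
      Metric.ball x δ ⊆ D k) → ((∀ i, ((Nat.findGreatest (fun j => ∃ x,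
      (∀ i, (j : ℝ) ≤ dist x (p k i)) ∧ Metric.ball x δ ⊆ D k) k : ℕ) : ℝ) ≤ dist x (p k i)) ∧
      Metric.ball x δ ⊆ D k) := by
    intro k
    by_cases h1 : ∃ x, (∀ i, ((Nat.findGreatest (fun j => ∃ x,
      (∀ i, (j : ℝ) ≤ dist x (p k i)) ∧ Metric.ball x δ ⊆ D k) k : ℕ) : ℝ) ≤ dist x (p k i)) ∧
      Metric.ball x δ ⊆ D k
    · obtain ⟨x, hx⟩ := h1
      exact ⟨x, fun _ => hx⟩
    · exact ⟨0, fun h2 => absurd h2 h1⟩
  choose x hx using hx
  refine ⟨x, fun j => ?_⟩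
  filter_upwards [hA j, hU (eventually_ge_atTop j)] with k h1 h2
  have h3 := Nat.findGreatest_spec (P := fun j : ℕ => ∃ x,
      (∀ i, (j : ℝ) ≤ dist x (p k i)) ∧ Metric.ball x δ ⊆ D k) h2 h1
  have h4 := Nat.le_findGreatest (P := fun j : ℕ => ∃ x,
      (∀ i, (j : ℝ) ≤ dist x (p k i)) ∧ Metric.ball x δ ⊆ D k) h2 h1
  have h5 := hx k h3
  exact ⟨fun i => (Nat.cast_le.2 h4).trans (h5.1 i), h5.2⟩

theorem Sys.thin' (h : Sys U D p E l) {δ : ℝ} (hδ : 0 < δ) :
    ∃ R : ℝ, ∀ᶠ k in (U : Filter ℕ), ∀ x, (∀ i, R ≤ dist x (p k i)) →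
      ¬ Metric.ball x δ ⊆ D k := by
  by_contra hcon
  rw [not_exists] at hcon
  have hA : ∀ j : ℕ, ∀ᶠ k in (U : Filter ℕ), ∃ x, (∀ i, (j : ℝ) ≤ dist x (p k i)) ∧
      Metric.ball x δ ⊆ D k := by
    intro j
    have h1 := hcon (j : ℝ)
    rw [← Ultrafilter.eventually_not] at h1
    filter_upwards [h1] with k hk
    push Not at hk
    exact hk
  obtain ⟨x, hx⟩ := GThin_pts h.ult hA
  have hV : VLim U p x = ∅ := by
    rw [Set.eq_empty_iff_forall_notMem]
    rintro y ⟨i, hi⟩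
    obtain ⟨j, hj⟩ := exists_nat_gt (‖y‖ + 1)
    have h1 : ∀ᶠ k in (U : Filter ℕ), dist (p k i - x k) y < 1 :=
      hi (Metric.ball_mem_nhds y one_pos)
    obtain ⟨k, h2, h3⟩ := (h1.and (hx j)).exists
    have h4 := h3.1 i
    rw [dist_comm, dist_eq_norm] at h4
    rw [dist_eq_norm] at h2
    have h5 : ‖p k i - x k‖ ≤ ‖p k i - x k - y‖ + ‖y‖ := by
      have := norm_add_le (p k i - x k - y) y
      rwa [sub_add_cancel] at this
    linarith
  have h0 : (0 : P) ∈ OLim U D x := by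
    refine ⟨δ, hδ, ?_⟩
    filter_upwards [hx 0] with k hk z hz
    refine hk.2 ?_
    rw [Metric.mem_ball, dist_eq_norm, add_sub_cancel_left]
    rwa [dist_eq_norm, sub_zero] at hz
  have hb : Bornology.IsBounded (OLim U D x) := h.bdd_OLim'
  have hne : (frontier (OLim U D x)).Nonempty := by
    rw [Set.nonempty_iff_ne_empty]
    intro h1
    rw [← isClopen_iff_frontier_eq_empty] at h1
    rcases isClopen_iff.1 h1 with h2 | h2
    · rw [h2] at h0
      exact h0
    · rw [h2] at hb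
      exact NormedSpace.unbounded_univ ℝ P hb
  have hc : IsCompact (frontier (OLim U D x)) :=
    Metric.isCompact_of_isClosed_isBounded isClosed_frontier
      (hb.closure.subset frontier_subset_closure)
  obtain ⟨y, hy⟩ := hne
  have hyV : y ∉ VLim U p x := by
    rw [hV]
    exact Set.notMem_empty y
  obtain ⟨w, hw, r, hr, hloc⟩ := h.loc y hy hyV
  obtain ⟨t, -, ht, -⟩ := ray hc (by rw [hV]; exact isClosed_empty) h.loc hyV hw hr
    (fun s hs => (hloc _ (by
      rw [dist_eq_norm, add_sub_cancel_left, norm_smul, hw, mul_one]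
      exact hs)).2 ⟨s, rfl⟩)
  rw [hV] at ht
  exact ht

end Pool.Agent.MP4eed4eX
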