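import Pool.Agent.Lib.MP_4eed4e_an_XG.GUni
import Pool.Agent.Lib.MP_4eed4e_an_XG.GThin
import Pool.Agent.Lib.MP_4eed4e_an_XG.GMapB
import Pool.Agent.Lib.MP_4eed4e_an_XA.OutA

set_option autoImplicit false

/-!
Project X, block MG, module GGlue: the data for the analytic part, and the limit theorem.
-/

namespace Pool.Agent.MP4eed4eX

open MeasureTheory Set Filter Topology Pool.Agent.MP4eed4eP

variable {n : ℕ} {U : Ultrafilter ℕ} {D : ℕ → Set P} {p : ℕ → Fin n → P}
  {E : Finset (Fin n × Fin n)} {l : ℕ → ℝ} {x : ℕ → P}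

theorem Sys.isClosed_union (h : Sys U D p E l) :
    IsClosed (OLim U D x ∪ GLim U p E x) := by
  have h1 : OLim U D x ∪ GLim U p E x = closure (OLim U D x) ∪ GLim U p E x := by
    refine Subset.antisymm (union_subset_union_left _ subset_closure) ?_
    rintro y (hy | hy)
    · by_cases hO : y ∈ OLim U D x
      · exact Or.inl hO
      · refine Or.inr (h.frontier_OLim' ⟨hy, ?_⟩)
        rw [isOpen_OLim'.interior_eq]
        exact hO
    · exact Or.inr hy
  rw [h1]
  exact isClosed_closure.union isClosed_GLim'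

/-- The complement of the limit set, up to a set of small measure, is free of the sets. -/
theorem Sys.out_measure (h : Sys U D p E l) (x : ℕ → P) (R : ℝ) {μ : ℝ} (hμ : 0 < μ) :
    ∃ K : Set P, IsCompact K ∧
      volume ((Metric.closedBall 0 R \ OLim U D x) \ K) ≤ ENNReal.ofReal μ ∧
      ∃ r : ℝ, 0 < r ∧ ∀ᶠ k in (U : Filter ℕ), ∀ y ∈ K, ∀ z, dist z y ≤ r → x k + z ∉ D k := by
  obtain ⟨A, hA⟩ : ∃ A : Set P, A = (Metric.closedBall 0 R \ OLim U D x) \ GLim U p E x :=
    ⟨_, rfl⟩
  have hAm : MeasurableSet A := by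
    rw [hA]
    exact (Metric.isClosed_closedBall.measurableSet.diff isOpen_OLim'.measurableSet).diff
      isClosed_GLim'.measurableSet
  have hAf : volume A ≠ ⊤ := by
    refine ne_of_lt (lt_of_le_of_lt (measure_mono (t := Metric.closedBall 0 R) ?_)
      (isCompact_closedBall 0 R).measure_lt_top)
    rw [hA]
    exact fun y hy => hy.1.1
  obtain ⟨K, hKA, hK, hvol⟩ := hAm.exists_isCompact_lt_add hAf (ε := ENNReal.ofReal μ)
    (by simpa using hμ)
  refine ⟨K, hK, ?_, ?_⟩
  · have h1 : (Metric.closedBall 0 R \ OLim U D x) \ K ⊆ (A \ K) ∪ GLim U p E x := by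
      intro y hy
      by_cases hG : y ∈ GLim U p E x
      · exact Or.inr hG
      · refine Or.inl ⟨?_, hy.2⟩
        rw [hA]
        exact ⟨hy.1, hG⟩
    refine (measure_mono h1).trans ((measure_union_le _ _).trans ?_)
    rw [h.null_GLim', add_zero]
    have hKf : volume K ≠ ⊤ := hK.measure_lt_top.ne
    rw [measure_diff hKA hK.measurableSet.nullMeasurableSet hKf]
    exact tsub_le_iff_left.2 hvol.le
  · have hsub : K ⊆ (OLim U D x ∪ GLim U p E x)ᶜ := by
      intro y hy hy'
      have hyA := hKA hy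
      rw [hA] at hyA
      rcases hy' with h1 | h1
      · exact hyA.1.2 h1
      · exact hyA.2 h1
    obtain ⟨r, hr, hth⟩ := hK.exists_cthickening_subset_open h.isClosed_union.isOpen_compl hsub
    refine ⟨r, hr, ?_⟩
    have hc : IsCompact (Metric.cthickening r K) := hK.cthickening
    have h1 := h.out_compact' (x := x) hc
      (disjoint_left.2 fun y hy hy' => hth hy (Or.inl hy'))
      (disjoint_left.2 fun y hy hy' => hth hy (Or.inr hy'))
    filter_upwards [h1] with k hk y hy z hz
    exact hk z (Metric.mem_cthickening_of_dist_le z y r K hy hz)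

theorem Sys.limData (h : Sys U D p E l) :
    LimData (U : Filter ℕ) D p (Rep U p) (fun c => OLim U D (ctr p c))
      (fun c => (finite_VLim' (U := U) (p := p) (x := ctr p c)).toFinset) where
  op := fun c _ => isOpen_OLim'
  bdd := fun c _ => h.bdd_OLim'
  inn := fun c _ K hK hsub => OLim_compact' hK hsub
  out := fun c _ R μ hμ => h.out_measure (ctr p c) R hμ
  map := by
    intro c _ r hr κ hκ
    obtain ⟨R, hR⟩ := (h.bdd_OLim' (x := ctr p c)).closure.exists_norm_le
    have h1 := near_map' (U := U) (fun k => (h.fig k).slg) (ctr p c) R hr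
      (κ := (κ : ℝ)) (by exact_mod_cast hκ)
    filter_upwards [h1] with k hk
    obtain ⟨v, hv1, hv2, hv3⟩ := hk
    rw [Real.toNNReal_coe] at hv1
    refine ⟨v, hv1, hv2, fun y hy hw hD => ?_⟩
    have h2 : ctr p c k + (y + v y) ∈ Gr (p k) E := by
      refine hv3 y (h.frontier_OLim' hy) (hR y (frontier_subset_closure hy)) fun z hz => ?_
      exact hw z (by simpa using hz)
    rw [← (h.fig k).fr, (h.fig k).op.frontier_eq] at h2
    refine h2.2 ?_
    have h3 : ctr p c k + (y + v y) = p k c + y + v y := by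
      rw [← add_assoc]
      rfl
    rw [h3]
    exact hD
  thin := fun δ hδ => h.thin' hδ
  far := by
    intro c hc c' hc' hne
    rw [tendsto_atTop]
    intro b
    filter_upwards [rep_far' hc hc' hne b] with k hk
    exact hk.le
  near := by
    intro i
    obtain ⟨c, hc, hn⟩ := exists_rep' U p i
    obtain ⟨R, hR⟩ := hn.symm
    exact ⟨c, hc, R, hR⟩

theorem DLim_eq (U : Ultrafilter ℕ) (D : ℕ → Set P) (p : ℕ → Fin n → P) (s : Fin n → P) :
    Dlim (Rep U p) (fun c => OLim U D (ctr p c)) s = DLim U D p s := by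
  ext y
  simp only [Dlim, DLim, mem_iUnion, mem_image, mem_setOf_eq, exists_prop]
  constructor
  · rintro ⟨c, hc, hy⟩
    exact ⟨c, hc, y - s c, hy, sub_add_cancel _ _⟩
  · rintro ⟨c, hc, z, hz, rfl⟩
    exact ⟨c, hc, by simpa using hz⟩

/-- The main limit theorem. -/
theorem limit' {n : ℕ} {E : Finset (Fin n × Fin n)} {D : ℕ → Set P} {p : ℕ → Fin n → P}
    (h : ∀ k, Fig (D k) (p k) E) {l : ℕ → ℝ}
    (hl : ∀ j, Tendsto (fun k => lamL (D k) j) atTop (𝓝 (l j))) (hinf : Tendsto l atTop atTop)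
    (U : Ultrafilter ℕ) (hU : (U : Filter ℕ) ≤ atTop) :
    ∃ (M : ℕ) (p' : Fin M → P) (E' : Finset (Fin M × Fin M)) (D' : Set P), M ≤ n ∧
      Fig D' p' E' ∧ (∀ j, lamL D' j = l j) ∧
      (M = n → ∃ (q : Fin n → P) (E'' : Finset (Fin n × Fin n)), Fig D' q E'' ∧
        ((∀ i j, Tendsto (fun k => p k i - p k j) U (𝓝 (q i - q j))) ∨
          ∃ s : ℝ, (∃ i, (q i).1 < s) ∧ (∃ i, s < (q i).1) ∧ ∀ x ∈ closure D', x.1 ≠ s)) := by
  have hS : Sys U D p E l := ⟨hU, h, hl, hinf⟩
  obtain ⟨s, R, hR, hb, hs, M, p', E', hM, hF, hA⟩ := hS.union'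
  refine ⟨M, p', E', DLim U D p s, hM, hF, fun j => ?_, hA⟩
  rw [← DLim_eq U D p s]
  refine lamL_Dlim h hS.limData ?_ (fun j => (hl j).mono_left hU) hinf j
  intro c hc c' hc' hne y hy hy'
  have h1 := hb c hc hy
  have h2 := hb c' hc' hy'
  rw [Metric.mem_ball, dist_zero_right] at h1 h2
  have h3 := hs c hc c' hc' hne
  have h4 : dist (s c) (s c') ≤ ‖y - s c‖ + ‖y - s c'‖ := by
    rw [dist_eq_norm]
    have : s c - s c' = (y - s c') - (y - s c) := by abel
    rw [this]
    have := norm_sub_le (y - s c') (y - s c)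
    linarith
  linarith

end Pool.Agent.MP4eed4eX
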