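import Pool.Agent.Lib.MP_4eed4e_an_X.MDefs

set_option autoImplicit false

/-!
Project X, block MG, module GCell: an unbounded open set whose frontier is contained in finitely
many lines contains infinitely many disjoint squares of the same size.

Proof of `unbdd_balls`. For `y : P` let `sg y = S.filter (fun g => 0 < det2 g.1 (y - g.2))`, and
for `σ : Finset (P × P)` let `C σ` be the set of `y` with `0 < det2 g.1 (y - g.2)` for `g ∈ S`,
`g ∈ σ` and `det2 g.1 (y - g.2) < 0` for `g ∈ S`, `g ∉ σ`: open (finite intersection), convex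
(half planes), disjoint from `G`. If `C σ` meets `O` then `C σ ⊆ O` (preconnected, disjoint from
`frontier O`; use `IsPreconnected` and clopen arguments or `IsPreconnected.inter_frontier_nonempty`).
The union of the lines has empty interior (finite union of closed sets with empty interior, or it
is a null set), so for every `N` there is `z ∈ O` with `‖z‖ ≥ N` on none of the lines (`O` is open
and unbounded), so `z ∈ C (sg z)`. There are only finitely many `σ ⊆ S`, so for one of them `C σ`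
meets `O` and is unbounded. Take `z0 ∈ C σ`, `z k ∈ C σ` with `‖z k - z0‖ → ∞`; a subsequence of
`‖z k - z0‖⁻¹ • (z k - z0)` converges to some `w`, `‖w‖ = 1` (compact sphere). For `g ∈ S`,
`g ∈ σ`: `det2 g.1 (z k - z0) = det2 g.1 (z k - g.2) - det2 g.1 (z0 - g.2) ≥ - det2 g.1 (z0 - g.2)`,
so `det2 g.1 w ≥ 0`; for `g ∉ σ`: `det2 g.1 w ≤ 0`. Let `closedBall z0 δ ⊆ C σ`, `δ > 0`. Then for
`t ≥ 0` also `closedBall (z0 + t • w) δ ⊆ C σ ⊆ O`. Put `c i = z0 + (3 * δ * i) • w`.
-/

namespace Pool.Agent.MP4eed4eX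

open MeasureTheory Set Filter Topology Pool.Agent.MP4eed4eP

private lemma gc_cont (g a : P) : Continuous fun y : P => det2 g (y - a) := by
  unfold det2
  fun_prop

private lemma gc_contL (g : P) : Continuous fun y : P => det2 g y := by
  unfold det2
  fun_prop

private lemma gc_dense (g a : P) (hg : g ≠ 0) : Dense {y : P | det2 g (y - a) ≠ 0} := by
  have hpos : 0 < g.1 * g.1 + g.2 * g.2 := by
    have h : g.1 ≠ 0 ∨ g.2 ≠ 0 := by
      by_contra hc
      push Not at hc
      exact hg (Prod.ext hc.1 hc.2)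
    rcases h with h | h
    · nlinarith [mul_self_pos.2 h, mul_self_nonneg g.2]
    · nlinarith [mul_self_pos.2 h, mul_self_nonneg g.1]
  rw [Metric.dense_iff]
  intro y ε hε
  set w : P := (-g.2, g.1) with hw
  have hdet : ∀ t : ℝ, det2 g (y + t • w - a) = det2 g (y - a) + t * (g.1 * g.1 + g.2 * g.2) := by
    intro t
    simp only [det2, hw, Prod.fst_sub, Prod.snd_sub, Prod.fst_add, Prod.snd_add, Prod.smul_fst,
      Prod.smul_snd, smul_eq_mul]
    ring
  set δ : ℝ := ε / (2 * (‖w‖ + 1)) with hδ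
  have hw0 : 0 ≤ ‖w‖ := norm_nonneg w
  have hδ0 : 0 < δ := by positivity
  have hδε : δ * ‖w‖ < ε / 2 + 0 := by
    have : δ * (‖w‖ + 1) = ε / 2 := by
      rw [hδ]
      field_simp
    nlinarith
  by_cases h : det2 g (y + δ • w - a) = 0
  · refine ⟨y + (δ / 2) • w, ?_, ?_⟩
    · rw [Metric.mem_ball, dist_eq_norm]
      have : y + (δ / 2) • w - y = (δ / 2) • w := by abel
      rw [this, norm_smul, Real.norm_eq_abs, abs_of_pos (by positivity)]
      nlinarith
    · rw [Set.mem_setOf_eq, hdet]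
      rw [hdet] at h
      intro h2
      nlinarith [mul_pos hδ0 hpos]
  · refine ⟨y + δ • w, ?_, h⟩
    rw [Metric.mem_ball, dist_eq_norm]
    have : y + δ • w - y = δ • w := by abel
    rw [this, norm_smul, Real.norm_eq_abs, abs_of_pos hδ0]
    nlinarith

/-- The cell of sign pattern `σ`. -/
private def gcC (S σ : Finset (P × P)) : Set P :=
  {y | ∀ g ∈ S, (g ∈ σ → 0 < det2 g.1 (y - g.2)) ∧ (g ∉ σ → det2 g.1 (y - g.2) < 0)}

private lemma gc_convex (S σ : Finset (P × P)) : Convex ℝ (gcC S σ) := by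
  intro x hx y hy a b ha hb hab g hg
  have h : det2 g.1 (a • x + b • y - g.2)
      = a * det2 g.1 (x - g.2) + b * det2 g.1 (y - g.2) := by
    have hb' : b = 1 - a := by linarith
    simp only [det2, Prod.fst_sub, Prod.snd_sub, Prod.fst_add, Prod.snd_add, Prod.smul_fst,
      Prod.smul_snd, smul_eq_mul]
    rw [hb']
    ring
  constructor
  · intro hs
    have h1 := (hx g hg).1 hs
    have h2 := (hy g hg).1 hs
    rw [h]
    rcases ha.eq_or_lt with ha0 | ha0
    · have : b = 1 := by linarith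
      rw [← ha0, this]
      linarith
    · nlinarith [mul_pos ha0 h1, mul_nonneg hb h2.le]
  · intro hs
    have h1 := (hx g hg).2 hs
    have h2 := (hy g hg).2 hs
    rw [h]
    rcases ha.eq_or_lt with ha0 | ha0
    · have : b = 1 := by linarith
      rw [← ha0, this]
      linarith
    · nlinarith [mul_pos ha0 (neg_pos.2 h1), mul_nonneg hb (neg_pos.2 h2).le]

private lemma gc_open (S σ : Finset (P × P)) : IsOpen (gcC S σ) := by
  have h : gcC S σ = ⋂ g ∈ S, {y | (g ∈ σ → 0 < det2 g.1 (y - g.2)) ∧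
      (g ∉ σ → det2 g.1 (y - g.2) < 0)} := by
    ext y
    simp [gcC]
  rw [h]
  refine isOpen_biInter_finset fun g _ => ?_
  by_cases hs : g ∈ σ
  · have : {y : P | (g ∈ σ → 0 < det2 g.1 (y - g.2)) ∧ (g ∉ σ → det2 g.1 (y - g.2) < 0)}
        = {y | 0 < det2 g.1 (y - g.2)} := by
      ext y
      simp [hs]
    rw [this]
    exact isOpen_lt continuous_const (gc_cont _ _)
  · have : {y : P | (g ∈ σ → 0 < det2 g.1 (y - g.2)) ∧ (g ∉ σ → det2 g.1 (y - g.2) < 0)}
        = {y | det2 g.1 (y - g.2) < 0} := by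
      ext y
      simp [hs]
    rw [this]
    exact isOpen_lt (gc_cont _ _) continuous_const

theorem unbdd_balls {O G : Set P} (hO : IsOpen O) (hd : Disjoint O G) (hf : frontier O ⊆ G)
    (S : Finset (P × P)) (hS0 : ∀ g ∈ S, g.1 ≠ 0)
    (hS : ∀ y ∈ G, ∃ g ∈ S, det2 g.1 (y - g.2) = 0) (hu : ¬ Bornology.IsBounded O) :
    ∃ δ > 0, ∃ c : ℕ → P, (∀ i, Metric.closedBall (c i) δ ⊆ O) ∧
      ∀ i j, i ≠ j → Disjoint (Metric.closedBall (c i) δ) (Metric.closedBall (c j) δ) := by
  classical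
  have hdense : Dense (⋂ g ∈ (S : Set (P × P)), {y : P | det2 g.1 (y - g.2) ≠ 0}) := by
    refine dense_biInter_of_isOpen ?_ S.countable_toSet ?_
    · intro g _
      exact isOpen_ne_fun (gc_cont _ _) continuous_const
    · intro g hg
      exact gc_dense g.1 g.2 (hS0 g hg)
  have hz : ∀ k : ℕ, ∃ z ∈ O, (k : ℝ) < ‖z‖ ∧ ∀ g ∈ S, det2 g.1 (z - g.2) ≠ 0 := by
    intro k
    have h1 : ∃ y ∈ O, (k : ℝ) < ‖y‖ := by
      by_contra hc
      push Not at hc
      exact hu (isBounded_iff_forall_norm_le.2 ⟨k, hc⟩)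
    obtain ⟨y, hy, hky⟩ := h1
    have hop : IsOpen (O ∩ {y : P | (k : ℝ) < ‖y‖}) :=
      hO.inter (isOpen_lt continuous_const continuous_norm)
    obtain ⟨z, hz, hz2⟩ := hdense.inter_open_nonempty _ hop ⟨y, hy, hky⟩
    refine ⟨z, hz.1, hz.2, ?_⟩
    intro g hg
    have := Set.mem_iInter₂.1 hz2 g hg
    exact this
  choose z hzO hzn hzd using hz
  set sg : P → Finset (P × P) := fun y => S.filter (fun g => 0 < det2 g.1 (y - g.2)) with hsg
  have hfreq : ∃ σ ∈ S.powerset, ∃ᶠ k in (atTop : Filter ℕ), sg (z k) = σ := by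
    by_contra hc
    push Not at hc
    have h1 : ∀ᶠ k in (atTop : Filter ℕ), ∀ σ ∈ S.powerset, sg (z k) ≠ σ := by
      rw [Filter.eventually_all_finset]
      intro σ hσ
      have := hc σ hσ
      simpa [Filter.Frequently] using this
    obtain ⟨k, hk⟩ := h1.exists
    exact hk (sg (z k)) (Finset.mem_powerset.2 (Finset.filter_subset _ _)) rfl
  obtain ⟨σ, -, hσ⟩ := hfreq
  obtain ⟨φ, hφ, hφσ⟩ := Filter.extraction_of_frequently_atTop hσ
  have hmem : ∀ n, z (φ n) ∈ gcC S σ := by
    intro n g hg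
    have hs := hφσ n
    constructor
    · intro h
      rw [← hs] at h
      exact (Finset.mem_filter.1 h).2
    · intro h
      rw [← hs] at h
      have h2 : ¬ 0 < det2 g.1 (z (φ n) - g.2) := fun h3 => h (Finset.mem_filter.2 ⟨hg, h3⟩)
      exact lt_of_le_of_ne (not_lt.1 h2) (hzd (φ n) g hg)
  have hCO : gcC S σ ⊆ O := by
    by_contra hc
    obtain ⟨y, hy, hyO⟩ := Set.not_subset.1 hc
    have hnf : ∀ v ∈ gcC S σ, v ∉ frontier O := by
      intro v hv hvf
      obtain ⟨g, hg, hg0⟩ := hS v (hf hvf)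
      by_cases hs : g ∈ σ
      · have := (hv g hg).1 hs
        linarith
      · have := (hv g hg).2 hs
        linarith
    have hcl : ∀ v ∈ gcC S σ, v ∉ O → v ∉ closure O := by
      intro v hv hvO hvc
      refine hnf v hv ⟨hvc, ?_⟩
      rw [hO.interior_eq]
      exact hvO
    obtain ⟨v, -, hv1, hv2⟩ := (gc_convex S σ).isPreconnected O (closure O)ᶜ hO
      isClosed_closure.isOpen_compl
      (fun v hv => by
        by_cases hvO : v ∈ O
        · exact Or.inl hvO
        · exact Or.inr (hcl v hv hvO))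
      ⟨z (φ 0), hmem 0, hzO _⟩ ⟨y, hy, hcl y hy hyO⟩
    exact hv2 (subset_closure hv1)
  set z0 : P := z (φ 0) with hz0
  set x : ℕ → P := fun n => z (φ n) with hx
  have hxn : Tendsto (fun n => ‖x n - z0‖) atTop atTop := by
    refine tendsto_atTop_mono (fun n => ?_)
      (tendsto_atTop_add_const_right _ (-‖z0‖) tendsto_natCast_atTop_atTop)
    have h1 : (n : ℝ) ≤ (φ n : ℝ) := by exact_mod_cast hφ.id_le n
    have h2 : (φ n : ℝ) < ‖x n‖ := hzn (φ n)
    have h3 : ‖x n‖ ≤ ‖x n - z0‖ + ‖z0‖ := by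
      have := norm_add_le (x n - z0) z0
      simpa using this
    linarith
  set u : ℕ → P := fun n => ‖x n - z0‖⁻¹ • (x n - z0) with hu'
  have hub : ∀ n, u n ∈ Metric.closedBall (0 : P) 1 := by
    intro n
    rw [mem_closedBall_zero_iff, hu']
    simp only [norm_smul, norm_inv, norm_norm]
    by_cases h : ‖x n - z0‖ = 0
    · rw [h]
      simp
    · rw [inv_mul_cancel₀ h]
  obtain ⟨w, -, ψ, hψ, hw⟩ := (isCompact_closedBall (0 : P) 1).tendsto_subseq hub
  have hxψ : Tendsto (fun n => ‖x (ψ n) - z0‖) atTop atTop := hxn.comp hψ.tendsto_atTop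
  have hw1 : ‖w‖ = 1 := by
    have h1 : Tendsto (fun n => ‖u (ψ n)‖) atTop (𝓝 ‖w‖) := (continuous_norm.tendsto w).comp hw
    have h2 : Tendsto (fun n => ‖u (ψ n)‖) atTop (𝓝 1) := by
      refine tendsto_const_nhds.congr' ?_
      filter_upwards [hxψ.eventually_gt_atTop 0] with n hn
      simp only [hu', norm_smul, norm_inv, norm_norm]
      rw [inv_mul_cancel₀ hn.ne']
    exact tendsto_nhds_unique h1 h2
  have hinv : Tendsto (fun n => ‖x (ψ n) - z0‖⁻¹) atTop (𝓝 0) := tendsto_inv_atTop_zero.comp hxψ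
  have hdet : ∀ (g : P × P) (n : ℕ), det2 g.1 (u n)
      = ‖x n - z0‖⁻¹ * (det2 g.1 (x n - g.2) - det2 g.1 (z0 - g.2)) := by
    intro g n
    simp only [hu', det2, Prod.fst_sub, Prod.snd_sub, Prod.smul_fst, Prod.smul_snd, smul_eq_mul]
    ring
  have hlim : ∀ g : P × P, Tendsto (fun n => det2 g.1 (u (ψ n))) atTop (𝓝 (det2 g.1 w)) := by
    intro g
    exact ((gc_contL g.1).tendsto w).comp hw
  have hgp : ∀ g ∈ S, g ∈ σ → 0 ≤ det2 g.1 w := by
    intro g hg hs
    have h1 : Tendsto (fun n => ‖x (ψ n) - z0‖⁻¹ * (- det2 g.1 (z0 - g.2))) atTop (𝓝 0) := by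
      have := hinv.mul_const (- det2 g.1 (z0 - g.2))
      simpa using this
    refine le_of_tendsto_of_tendsto' h1 (hlim g) fun n => ?_
    rw [hdet]
    have h2 := (hmem (ψ n) g hg).1 hs
    have h3 : 0 ≤ ‖x (ψ n) - z0‖⁻¹ := by positivity
    refine mul_le_mul_of_nonneg_left ?_ h3
    have : x (ψ n) = z (φ (ψ n)) := rfl
    rw [this]
    linarith
  have hgn : ∀ g ∈ S, g ∉ σ → det2 g.1 w ≤ 0 := by
    intro g hg hs
    have h1 : Tendsto (fun n => ‖x (ψ n) - z0‖⁻¹ * (- det2 g.1 (z0 - g.2))) atTop (𝓝 0) := by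
      have := hinv.mul_const (- det2 g.1 (z0 - g.2))
      simpa using this
    refine le_of_tendsto_of_tendsto' (hlim g) h1 fun n => ?_
    rw [hdet]
    have h2 := (hmem (ψ n) g hg).2 hs
    have h3 : 0 ≤ ‖x (ψ n) - z0‖⁻¹ := by positivity
    refine mul_le_mul_of_nonneg_left ?_ h3
    have : x (ψ n) = z (φ (ψ n)) := rfl
    rw [this]
    linarith
  obtain ⟨δ, hδ, hball⟩ := Metric.nhds_basis_closedBall.mem_iff.1
    ((gc_open S σ).mem_nhds (hmem 0))
  have hray : ∀ t : ℝ, 0 ≤ t → Metric.closedBall (z0 + t • w) δ ⊆ O := by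
    intro t ht y hy
    refine hCO ?_
    have hy2 : y - t • w ∈ gcC S σ := by
      refine hball ?_
      rw [Metric.mem_closedBall, dist_eq_norm] at hy ⊢
      have : y - t • w - z (φ 0) = y - (z0 + t • w) := by
        rw [hz0]
        abel
      rw [this]
      exact hy
    intro g hg
    have hlin : det2 g.1 (y - g.2) = det2 g.1 (y - t • w - g.2) + t * det2 g.1 w := by
      simp only [det2, Prod.fst_sub, Prod.snd_sub, Prod.smul_fst, Prod.smul_snd, smul_eq_mul]
      ring
    constructor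
    · intro hs
      have h1 := (hy2 g hg).1 hs
      have h2 := mul_nonneg ht (hgp g hg hs)
      rw [hlin]
      linarith
    · intro hs
      have h1 := (hy2 g hg).2 hs
      have h2 := mul_nonneg ht (neg_nonneg.2 (hgn g hg hs))
      rw [hlin]
      nlinarith
  refine ⟨δ, hδ, fun i => z0 + (3 * δ * (i : ℝ)) • w, fun i => hray _ (by positivity), ?_⟩
  intro i j hij
  refine Metric.closedBall_disjoint_closedBall ?_
  rw [dist_eq_norm]
  have h1 : z0 + (3 * δ * (i : ℝ)) • w - (z0 + (3 * δ * (j : ℝ)) • w)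
      = (3 * δ * ((i : ℝ) - j)) • w := by
    rw [mul_sub, sub_smul]
    abel
  rw [h1, norm_smul, hw1, mul_one, Real.norm_eq_abs, abs_mul, abs_of_pos (by positivity)]
  have h2 : (1 : ℝ) ≤ |(i : ℝ) - j| := by
    have : (1 : ℤ) ≤ |(i : ℤ) - j| := by
      refine Int.one_le_abs ?_
      intro h
      exact hij (by omega)
    exact_mod_cast this
  nlinarith

end Pool.Agent.MP4eed4eX
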