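import Pool.Agent.Lib.MP_4eed4e_an_XG.GUlt

set_option autoImplicit false

/-!
Project X, block MG, module GClu: clusters of vertices.

* `near_trans`: triangle inequality. `exists_rep'`: the least element `c` of
  `{j | Near U p i j}` (a nonempty finite set); if `Near U p c j` then `Near U p i j`, so `c ≤ j`.
* `rep_unique`: `c ≤ c'` and `c' ≤ c`. `Near.lim'`: `‖p k i - p k c‖` is eventually bounded,
  `ult_lim`; the limit is in `VLim U p (ctr p c)` by definition.
* `near_of_lim`: a convergent sequence is eventually bounded.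
* `rep_far'`: otherwise `dist (p k c) (p k c') ≤ R` for `U`-most `k` (`Ultrafilter.eventually_not`),
  so `Near U p c c'`, `c = c'`.
-/

namespace Pool.Agent.MP4eed4eX

open MeasureTheory Set Filter Topology Pool.Agent.MP4eed4eP

variable {n : ℕ} {U : Ultrafilter ℕ} {p : ℕ → Fin n → P}

theorem near_refl (U : Ultrafilter ℕ) (p : ℕ → Fin n → P) (i : Fin n) : Near U p i i := by
  exact ⟨0, Eventually.of_forall fun k => by simp⟩

theorem Near.symm {i j : Fin n} (h : Near U p i j) : Near U p j i := by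
  obtain ⟨C, hC⟩ := h
  refine ⟨C, ?_⟩
  filter_upwards [hC] with k hk
  rwa [dist_comm]

theorem Near.trans {i j k : Fin n} (h : Near U p i j) (h' : Near U p j k) : Near U p i k := by
  obtain ⟨C, hC⟩ := h
  obtain ⟨C', hC'⟩ := h'
  refine ⟨C + C', ?_⟩
  filter_upwards [hC, hC'] with m h1 h2
  exact (dist_triangle _ (p m j) _).trans (add_le_add h1 h2)

private theorem mem_Rep_iff {c : Fin n} : c ∈ Rep U p ↔ ∀ j, Near U p c j → c ≤ j := by
  classical
  simp [Rep]

theorem exists_rep' (U : Ultrafilter ℕ) (p : ℕ → Fin n → P) (i : Fin n) :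
    ∃ c ∈ Rep U p, Near U p c i := by
  classical
  obtain ⟨c, hc, hmin⟩ := (Finset.univ.filter fun j => Near U p i j).exists_min_image id
    ⟨i, by simpa using near_refl U p i⟩
  have hc' : Near U p i c := by simpa using hc
  refine ⟨c, mem_Rep_iff.2 fun j hj => ?_, hc'.symm⟩
  exact hmin j (by simpa using hc'.trans hj)

theorem rep_unique {c c' : Fin n} (hc : c ∈ Rep U p) (hc' : c' ∈ Rep U p)
    (h : Near U p c c') : c = c' := by
  exact le_antisymm (mem_Rep_iff.1 hc _ h) (mem_Rep_iff.1 hc' _ h.symm)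

theorem Near.lim' {c i : Fin n} (h : Near U p c i) :
    ∃ v ∈ VLim U p (ctr p c), Tendsto (fun k => p k i - p k c) (U : Filter ℕ) (𝓝 v) := by
  obtain ⟨C, hC⟩ := h
  obtain ⟨v, -, hv⟩ := ult_lim (U := U) (f := fun k => p k i - p k c) (C := C) (by
    filter_upwards [hC] with k hk
    rwa [← dist_eq_norm, dist_comm])
  exact ⟨v, ⟨i, hv⟩, hv⟩

theorem near_of_lim {c i : Fin n} {v : P}
    (h : Tendsto (fun k => p k i - p k c) (U : Filter ℕ) (𝓝 v)) : Near U p c i := by
  refine ⟨‖v‖ + 1, ?_⟩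
  filter_upwards [h.norm.eventually (gt_mem_nhds (lt_add_one ‖v‖))] with k hk
  rw [dist_comm, dist_eq_norm]
  exact hk.le

theorem rep_far' {c c' : Fin n} (hc : c ∈ Rep U p) (hc' : c' ∈ Rep U p) (hne : c ≠ c')
    (R : ℝ) : ∀ᶠ k in (U : Filter ℕ), R < dist (p k c) (p k c') := by
  have h : ¬ ∀ᶠ k in (U : Filter ℕ), dist (p k c) (p k c') ≤ R := fun h =>
    hne (rep_unique hc hc' ⟨R, h⟩)
  rw [← Ultrafilter.eventually_not] at h
  filter_upwards [h] with k hk
  exact not_le.1 hk

end Pool.Agent.MP4eed4eX
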