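import Pool.Agent.Lib.MP_4eed4e_an_XG.GUlt

set_option autoImplicit false

/-!
Project X, block MG, module GDir: the limit of an edge is contained in a line.

* `dL_spec`: `dk p e k` has norm 1 (the ends are different), so it has a limit along `U`
  (`ult_lim`), of norm 1 (continuity of the norm); `Classical.epsilon_spec`.
* `ELim_sub`: take `z k → y`, `z' k → y'` (minus `x k`) from `mem_ELim_iff`. Both are in the
  segment, so `z' k - z k = s k • dk p e k` with `|s k| = ‖z' k - z k‖`
  (`z k = p k e.1 + t k • (p k e.2 - p k e.1)` and `s k = (t' k - t k) * ‖p k e.2 - p k e.1‖`).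
  `|s k|` is eventually bounded, so `s k → s` along `U` (`ult_lim_real`);
  `s k • dk p e k → s • dL U p e`, so `y' - y = s • dL U p e`, `|s| = ‖y' - y‖`.
* `ELim_line`: let `r1` be from `notMem_VLim`, `r = r1 / 2`. Part 1: eventually there is `z k` in
  the segment with `dist (z k - x k) y < r` and both ends have distance `≥ r1` from `y`. Let
  `z = p k e.1 + t • (p k e.2 - p k e.1)` with `dist (z - x k) y < r`; if `t ≤ 0` then `p k e.1` is
  in the segment `[z, z k]`, whose points minus `x k` are in the ball of radius `r` about `y`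
  (convex), contradiction; the same for `t ≥ 1` and `p k e.2`. So `0 < t < 1` and `z` is in the open
  segment. Part 2: `z k - x k → y`, `z k` in the segment; for `|s| < r` the points
  `z k + s • dk p e k` are on the line, and (minus `x k`) they converge to `y + s • dL U p e`,
  whose distance from `y` is `|s| < r`, so eventually they are in the segment by part 1; so
  `y + s • dL U p e ∈ ELim` (definition of `ELim`).
-/

namespace Pool.Agent.MP4eed4eX

open MeasureTheory Set Filter Topology Pool.Agent.MP4eed4eP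

variable {n : ℕ} {U : Ultrafilter ℕ} {p : ℕ → Fin n → P} {E : Finset (Fin n × Fin n)}
  {x : ℕ → P}

/-- The unit direction of the edge `e` (in the norm of `P`). -/
noncomputable def dk (p : ℕ → Fin n → P) (e : Fin n × Fin n) (k : ℕ) : P :=
  ‖p k e.2 - p k e.1‖⁻¹ • (p k e.2 - p k e.1)

/-- The limit of the directions of the edge `e`. -/
noncomputable def dL (U : Ultrafilter ℕ) (p : ℕ → Fin n → P) (e : Fin n × Fin n) : P :=
  Classical.epsilon fun w => Tendsto (dk p e) (U : Filter ℕ) (𝓝 w)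

theorem norm_dk {e : Fin n × Fin n} {k : ℕ} (h : p k e.1 ≠ p k e.2) : ‖dk p e k‖ = 1 := by
  have hne : ‖p k e.2 - p k e.1‖ ≠ 0 := by
    rw [norm_ne_zero_iff, sub_ne_zero]
    exact fun h' => h h'.symm
  unfold dk
  rw [norm_smul, norm_inv, norm_norm, inv_mul_cancel₀ hne]

theorem dL_spec {e : Fin n × Fin n} (h : ∀ k, p k e.1 ≠ p k e.2) :
    ‖dL U p e‖ = 1 ∧ Tendsto (dk p e) (U : Filter ℕ) (𝓝 (dL U p e)) := by
  have hex : ∃ w, Tendsto (dk p e) (U : Filter ℕ) (𝓝 w) := by
    obtain ⟨y, -, hy⟩ := ult_lim (U := U) (f := dk p e) (C := 1)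
      (Eventually.of_forall fun k => (norm_dk (h k)).le)
    exact ⟨y, hy⟩
  have ht : Tendsto (dk p e) (U : Filter ℕ) (𝓝 (dL U p e)) := Classical.epsilon_spec hex
  refine ⟨?_, ht⟩
  have h1 : Tendsto (fun k => ‖dk p e k‖) (U : Filter ℕ) (𝓝 ‖dL U p e‖) := ht.norm
  have h2 : (fun k => ‖dk p e k‖) = fun _ => (1 : ℝ) := by
    funext k
    exact norm_dk (h k)
  rw [h2] at h1
  exact (tendsto_nhds_unique h1 tendsto_const_nhds)

private theorem seg_param {a b z : P} (hz : z ∈ segment ℝ a b) :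
    ∃ t : ℝ, 0 ≤ t ∧ t ≤ 1 ∧ z = a + t • (b - a) := by
  rw [segment_eq_image'] at hz
  obtain ⟨t, ht, rfl⟩ := hz
  exact ⟨t, ht.1, ht.2, rfl⟩

private theorem smul_dk {e : Fin n × Fin n} {k : ℕ} (h : p k e.1 ≠ p k e.2) (t : ℝ) :
    t • (p k e.2 - p k e.1) = (t * ‖p k e.2 - p k e.1‖) • dk p e k := by
  have hne : ‖p k e.2 - p k e.1‖ ≠ 0 := by
    rw [norm_ne_zero_iff, sub_ne_zero]
    exact fun h' => h h'.symm
  unfold dk
  rw [smul_smul, mul_assoc, mul_inv_cancel₀ hne, mul_one]

theorem ELim_sub {e : Fin n × Fin n} (h : ∀ k, p k e.1 ≠ p k e.2) {y y' : P}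
    (hy : y ∈ ELim U p x e) (hy' : y' ∈ ELim U p x e) :
    ∃ s : ℝ, |s| = ‖y' - y‖ ∧ y' = y + s • dL U p e := by
  obtain ⟨z, hz, hzt⟩ := mem_ELim_iff.1 hy
  obtain ⟨z', hz', hzt'⟩ := mem_ELim_iff.1 hy'
  have hex : ∀ k, ∃ s : ℝ, z' k - z k = s • dk p e k := by
    intro k
    obtain ⟨t, -, -, ht⟩ := seg_param (hz k)
    obtain ⟨t', -, -, ht'⟩ := seg_param (hz' k)
    refine ⟨(t' - t) * ‖p k e.2 - p k e.1‖, ?_⟩
    rw [← smul_dk (h k), ht, ht', sub_smul]
    abel
  choose s hs using hex
  have habs : ∀ k, |s k| = ‖z' k - z k‖ := by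
    intro k
    rw [hs k, norm_smul, norm_dk (h k), mul_one, Real.norm_eq_abs]
  have hdiff : Tendsto (fun k => z' k - z k) (U : Filter ℕ) (𝓝 (y' - y)) := by
    have := hzt'.sub hzt
    simpa using this
  have hdn : Tendsto (fun k => |s k|) (U : Filter ℕ) (𝓝 ‖y' - y‖) := by
    have := hdiff.norm
    simpa [habs] using this
  obtain ⟨s0, -, hs0⟩ := ult_lim_real (U := U) (f := s) (C := ‖y' - y‖ + 1) (by
    have : ∀ᶠ k in (U : Filter ℕ), |s k| < ‖y' - y‖ + 1 :=
      hdn.eventually (gt_mem_nhds (by linarith))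
    exact this.mono fun k hk => hk.le)
  obtain ⟨-, hd⟩ := dL_spec (U := U) h
  have hlim : Tendsto (fun k => s k • dk p e k) (U : Filter ℕ) (𝓝 (s0 • dL U p e)) := hs0.smul hd
  have heq : (fun k => s k • dk p e k) = fun k => z' k - z k := by
    funext k
    exact (hs k).symm
  rw [heq] at hlim
  have h1 : y' - y = s0 • dL U p e := tendsto_nhds_unique hdiff hlim
  refine ⟨s0, ?_, ?_⟩
  · exact tendsto_nhds_unique hs0.abs hdn
  · rw [← h1]
    abel

theorem ELim_line {e : Fin n × Fin n} (h : ∀ k, p k e.1 ≠ p k e.2) {y : P}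
    (hy : y ∈ ELim U p x e) (hV : y ∉ VLim U p x) : ∃ r > 0,
    (∀ᶠ k in (U : Filter ℕ), ∀ t : ℝ,
      dist (p k e.1 + t • (p k e.2 - p k e.1) - x k) y < r →
        p k e.1 + t • (p k e.2 - p k e.1) ∈ openSegment ℝ (p k e.1) (p k e.2)) ∧
    ∀ s : ℝ, |s| < r → y + s • dL U p e ∈ ELim U p x e := by
  obtain ⟨r1, hr1, hfar⟩ := notMem_VLim hV
  obtain ⟨z, hz, hzt⟩ := mem_ELim_iff.1 hy
  have hr : 0 < r1 / 2 := by linarith
  have hzb : ∀ᶠ k in (U : Filter ℕ), dist (z k - x k) y < r1 / 2 :=
    hzt.eventually (Metric.ball_mem_nhds y hr)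
  have part1 : ∀ᶠ k in (U : Filter ℕ), ∀ t : ℝ,
      dist (p k e.1 + t • (p k e.2 - p k e.1) - x k) y < r1 / 2 →
        p k e.1 + t • (p k e.2 - p k e.1) ∈ openSegment ℝ (p k e.1) (p k e.2) := by
    filter_upwards [hfar, hzb] with k hk hzk t ht
    obtain ⟨t0, ht00, ht01, hz0⟩ := seg_param (hz k)
    set a := p k e.1 with ha
    set b := p k e.2 with hb
    have hconv : Convex ℝ {w : P | dist (w - x k) y < r1 / 2} := by
      have : {w : P | dist (w - x k) y < r1 / 2} = Metric.ball (y + x k) (r1 / 2) := by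
        ext w
        simp only [Set.mem_ofPred_eq, Metric.mem_ball, dist_eq_norm]
        rw [show w - x k - y = w - (y + x k) by abel]
      rw [this]
      exact convex_ball _ _
    have key : ∀ u : ℝ, u ∈ segment ℝ t t0 → dist (a + u • (b - a) - x k) y < r1 / 2 := by
      intro u hu
      obtain ⟨c, d, hc, hd, hcd, rfl⟩ := hu
      have hm := hconv (x := a + t • (b - a)) ht (y := a + t0 • (b - a))
        (by rw [← hz0]; exact hzk) hc hd hcd
      simp only [Set.mem_ofPred_eq] at hm
      have hcd' : c = 1 - d := by linarith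
      have : c • (a + t • (b - a)) + d • (a + t0 • (b - a)) =
          a + (c • t + d • t0) • (b - a) := by
        rw [hcd']
        simp only [smul_eq_mul]
        module
      rwa [this] at hm
    have h0 : 0 < t := by
      by_contra hcon
      push Not at hcon
      have h1 := key 0 (by
        rw [segment_eq_uIcc, Set.mem_uIcc]
        left
        exact ⟨hcon, ht00⟩)
      have h2 := hk e.1
      simp only [zero_smul, add_zero] at h1
      rw [← ha] at h2
      linarith
    have h1 : t < 1 := by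
      by_contra hcon
      push Not at hcon
      have h1 := key 1 (by
        rw [segment_eq_uIcc, Set.mem_uIcc]
        right
        exact ⟨ht01, hcon⟩)
      have h2 := hk e.2
      simp only [one_smul, add_sub_cancel] at h1
      rw [← hb] at h2
      linarith
    rw [openSegment_eq_image']
    exact ⟨t, ⟨h0, h1⟩, rfl⟩
  refine ⟨r1 / 2, hr, part1, ?_⟩
  intro s hs
  obtain ⟨hn, hd⟩ := dL_spec (U := U) h
  have hlim : Tendsto (fun k => z k + s • dk p e k - x k) (U : Filter ℕ)
      (𝓝 (y + s • dL U p e)) := by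
    have h1 := hzt.add (hd.const_smul s)
    refine h1.congr fun k => ?_
    abel
  have hdist : dist (y + s • dL U p e) y < r1 / 2 := by
    rw [dist_eq_norm, add_sub_cancel_left, norm_smul, hn, mul_one, Real.norm_eq_abs]
    exact hs
  have hev : ∀ᶠ k in (U : Filter ℕ), dist (z k + s • dk p e k - x k) y < r1 / 2 := by
    have hopen : Metric.ball y (r1 / 2) ∈ 𝓝 (y + s • dL U p e) :=
      Metric.isOpen_ball.mem_nhds hdist
    exact hlim.eventually hopen
  intro r hrpos
  have hev2 : ∀ᶠ k in (U : Filter ℕ), dist (z k + s • dk p e k - x k) (y + s • dL U p e) < r :=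
    hlim.eventually (Metric.ball_mem_nhds _ hrpos)
  filter_upwards [part1, hev, hev2] with k hk hk1 hk2
  refine ⟨z k + s • dk p e k, ?_, hk2⟩
  obtain ⟨t0, -, -, hz0⟩ := seg_param (hz k)
  have hne : ‖p k e.2 - p k e.1‖ ≠ 0 := by
    rw [norm_ne_zero_iff, sub_ne_zero]
    exact fun h' => (h k) h'.symm
  have hform : z k + s • dk p e k =
      p k e.1 + (t0 + s * ‖p k e.2 - p k e.1‖⁻¹) • (p k e.2 - p k e.1) := by
    rw [hz0]
    unfold dk
    rw [smul_smul, add_smul, add_assoc]
  rw [hform]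
  apply openSegment_subset_segment
  apply hk
  rw [← hform]
  exact hk1

end Pool.Agent.MP4eed4eX
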