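import Pool.Agent.Lib.MP_4eed4e_an_XG.GCross
import Pool.Agent.Lib.MP_4eed4e_an_XG.GOpn

set_option autoImplicit false

/-!
Project X, block MG, module GFr: the frontier of the limit set is locally a line off the vertices.

Proof of `locLine_frontier`. Let `y ∈ frontier O ⊆ G`, `y ∉ V`; take `w`, `r` for `G`, `B` the ball.
The half balls `B+ = {z ∈ B | 0 < det2 w (z - y)}`, `B- = {z ∈ B | det2 w (z - y) < 0}` are convex
and disjoint from `G` (`z = y + s • w` has `det2 w (z - y) = 0`), so each of them is contained in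
`O` or disjoint from `O` (`sub_or_disj`). `B` contains a point `z` of `O` (`y` is in the closure);
`z ∉ G`, so `det2 w (z - y) ≠ 0` (otherwise `z = y + s • w` for some `s` because `w ≠ 0`, so
`z ∈ G`); so `B+ ⊆ O` or `B- ⊆ O`. Let `z ∈ B`, `z = y + s • w`: `z ∈ G`, so `z ∉ O`, and `z` is the
limit of `z ± ε • (-w.2, w.1) ∈ B±` (`det2 w (-w.2, w.1) = w.1 ^ 2 + w.2 ^ 2 > 0`), so
`z ∈ closure O`; hence `z ∈ frontier O` (`O` is open). Conversely `frontier O ⊆ G`.
`Sys.loc`: with `GLim_loc`, `Sys.disj'`, `Sys.frontier_OLim'`.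
-/

namespace Pool.Agent.MP4eed4eX

open MeasureTheory Set Filter Topology Pool.Agent.MP4eed4eP

variable {n : ℕ} {U : Ultrafilter ℕ} {D : ℕ → Set P} {p : ℕ → Fin n → P}
  {E : Finset (Fin n × Fin n)} {l : ℕ → ℝ} {x : ℕ → P}

/-- Off `V` the set `F` is locally a line. -/
def LocLine (F V : Set P) : Prop :=
  ∀ y ∈ F, y ∉ V → ∃ w : P, ‖w‖ = 1 ∧ ∃ r > 0, ∀ z, dist z y < r →
    (z ∈ F ↔ ∃ s : ℝ, z = y + s • w)

private theorem GFr_par {w v : P} (hw : ‖w‖ = 1) (h : det2 w v = 0) :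
    ∃ s : ℝ, v = s • w := by
  unfold det2 at h
  by_cases h1 : w.1 = 0
  · have h2 : w.2 ≠ 0 := by
      intro h2
      have : w = 0 := Prod.ext h1 h2
      rw [this, norm_zero] at hw
      exact zero_ne_one hw
    have h3 : v.1 = 0 := by
      rw [h1, zero_mul, zero_sub, neg_eq_zero] at h
      exact (mul_eq_zero.1 h).resolve_left h2
    refine ⟨v.2 / w.2, Prod.ext ?_ ?_⟩
    · simp [h1, h3]
    · simp [h2]
  · refine ⟨v.1 / w.1, Prod.ext ?_ ?_⟩
    · simp [h1]
    · simp only [Prod.smul_snd, smul_eq_mul]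
      field_simp
      linarith

private theorem GFr_pos {w : P} (hw : ‖w‖ = 1) : 0 < w.1 ^ 2 + w.2 ^ 2 := by
  by_contra hcon
  have h1 : w.1 = 0 := by nlinarith [sq_nonneg w.1, sq_nonneg w.2]
  have h2 : w.2 = 0 := by nlinarith [sq_nonneg w.1, sq_nonneg w.2]
  have : w = 0 := Prod.ext h1 h2
  rw [this, norm_zero] at hw
  exact zero_ne_one hw

private theorem GFr_conv (w y : P) (c : ℝ) : Convex ℝ {z : P | 0 < c * det2 w (z - y)} := by
  have h : IsLinearMap ℝ fun z : P => c * (w.1 * z.2 - w.2 * z.1) :=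
    { map_add := fun a b => by simp only [Prod.fst_add, Prod.snd_add]; ring
      map_smul := fun a b => by simp only [Prod.smul_fst, Prod.smul_snd, smul_eq_mul]; ring }
  have h2 := convex_halfSpace_gt h (c * (w.1 * y.2 - w.2 * y.1))
  have e : {z : P | 0 < c * det2 w (z - y)} =
      {z : P | c * (w.1 * y.2 - w.2 * y.1) < c * (w.1 * z.2 - w.2 * z.1)} := by
    refine Set.ext fun z => ?_
    change 0 < c * (w.1 * (z.2 - y.2) - w.2 * (z.1 - y.1)) ↔
      c * (w.1 * y.2 - w.2 * y.1) < c * (w.1 * z.2 - w.2 * z.1)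
    constructor <;> intro h <;> nlinarith
  rw [e]
  exact h2

theorem locLine_frontier {O G V : Set P} (hO : IsOpen O) (hd : Disjoint O G)
    (hf : frontier O ⊆ G) (hG : LocLine G V) : LocLine (frontier O) V := by
  intro y hy hyV
  obtain ⟨w, hw, r, hr, hG'⟩ := hG y (hf hy) hyV
  refine ⟨w, hw, r, hr, fun z hz => ⟨fun hzF => (hG' z hz).1 (hf hzF), ?_⟩⟩
  rintro ⟨s, rfl⟩
  have hself : ∀ t : ℝ, det2 w (y + t • w - y) = 0 := by
    intro t
    simp only [det2, Prod.fst_sub, Prod.snd_sub, Prod.fst_add, Prod.snd_add, Prod.smul_fst,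
      Prod.smul_snd, smul_eq_mul]
    ring
  have hhalf : ∀ c : ℝ, (∃ z₀ ∈ O, dist z₀ y < r ∧ 0 < c * det2 w (z₀ - y)) →
      ∀ z, dist z y < r → 0 < c * det2 w (z - y) → z ∈ O := by
    rintro c ⟨z₀, hz₀, hd₀, hp₀⟩ z hz hp
    have hB : IsPreconnected (Metric.ball y r ∩ {z : P | 0 < c * det2 w (z - y)}) :=
      ((convex_ball y r).inter (GFr_conv w y c)).isPreconnected
    have hdis : Disjoint (Metric.ball y r ∩ {z : P | 0 < c * det2 w (z - y)}) (frontier O) := by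
      rw [Set.disjoint_left]
      rintro v ⟨hv1, hv2⟩ hv3
      obtain ⟨t, rfl⟩ := (hG' v (Metric.mem_ball.1 hv1)).1 (hf hv3)
      have hv4 : 0 < c * det2 w (y + t • w - y) := hv2
      rw [hself, mul_zero] at hv4
      exact lt_irrefl _ hv4
    rcases sub_or_disj hB hdis with h1 | h1
    · exact h1 ⟨Metric.mem_ball.2 hz, hp⟩
    · exact absurd hz₀ (Set.disjoint_left.1 h1 ⟨Metric.mem_ball.2 hd₀, hp₀⟩)
  obtain ⟨z₀, hz₀, hd₀⟩ := Metric.mem_closure_iff.1 hy.1 r hr
  rw [dist_comm] at hd₀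
  have hne : det2 w (z₀ - y) ≠ 0 := by
    intro h0
    obtain ⟨t, ht⟩ := GFr_par hw h0
    refine Set.disjoint_left.1 hd hz₀ ((hG' z₀ hd₀).2 ⟨t, ?_⟩)
    rw [← ht]
    abel
  have hc : ∀ z, dist z y < r → 0 < det2 w (z₀ - y) * det2 w (z - y) → z ∈ O :=
    hhalf _ ⟨z₀, hz₀, hd₀, mul_self_pos.2 hne⟩
  have hzG : y + s • w ∈ G := (hG' _ hz).2 ⟨s, rfl⟩
  rw [hO.frontier_eq]
  refine ⟨?_, fun h1 => Set.disjoint_left.1 hd h1 hzG⟩
  rw [Metric.mem_closure_iff]
  intro ε hε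
  set c := det2 w (z₀ - y) with hcdef
  set u : P := (c / |c|) • ((-w.2, w.1) : P) with hu
  have hcn : |c| ≠ 0 := abs_ne_zero.2 hne
  have hu1 : ‖u‖ = 1 := by
    rw [hu, norm_smul, Real.norm_eq_abs, abs_div, abs_abs, div_self hcn, one_mul, ← hw,
      Prod.norm_def, Prod.norm_def, norm_neg, max_comm]
  set δ : ℝ := min ε (r - dist (y + s • w) y) / 2 with hδ
  have hm : 0 < min ε (r - dist (y + s • w) y) := lt_min hε (sub_pos.2 hz)
  have hδ0 : 0 < δ := by positivity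
  have hδ1 : δ < ε := by
    have := min_le_left ε (r - dist (y + s • w) y)
    rw [hδ]
    linarith
  have hδ2 : δ < r - dist (y + s • w) y := by
    have := min_le_right ε (r - dist (y + s • w) y)
    rw [hδ]
    linarith
  have hdd : dist (y + s • w + δ • u) (y + s • w) = δ := by
    rw [dist_eq_norm, add_sub_cancel_left, norm_smul, hu1, mul_one, Real.norm_eq_abs,
      abs_of_pos hδ0]
  refine ⟨y + s • w + δ • u, hc _ ?_ ?_, ?_⟩
  · have := dist_triangle (y + s • w + δ • u) (y + s • w) y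
    linarith
  · have e : det2 w (y + s • w + δ • u - y) = δ * (c / |c|) * (w.1 ^ 2 + w.2 ^ 2) := by
      simp only [hu, det2, Prod.fst_sub, Prod.snd_sub, Prod.fst_add, Prod.snd_add,
        Prod.smul_fst, Prod.smul_snd, smul_eq_mul]
      ring
    rw [e]
    have e2 : c * (δ * (c / |c|) * (w.1 ^ 2 + w.2 ^ 2)) =
        δ * (c ^ 2 / |c|) * (w.1 ^ 2 + w.2 ^ 2) := by ring
    rw [e2]
    have h1 : 0 < c ^ 2 / |c| := div_pos (by positivity) (abs_pos.2 hne)
    exact mul_pos (mul_pos hδ0 h1) (GFr_pos hw)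
  · rw [dist_comm, hdd]
    exact hδ1

theorem Sys.loc (h : Sys U D p E l) : LocLine (frontier (OLim U D x)) (VLim U p x) :=
  locLine_frontier isOpen_OLim' h.disj' h.frontier_OLim' fun _ hy hV =>
    GLim_loc (fun k => (h.fig k).slg) hy hV

end Pool.Agent.MP4eed4eX
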