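import Pool.Agent.Lib.MP_4eed4e_an_XG.GDir

set_option autoImplicit false

/-!
Project X, block MG, module GMapA: the map which moves the limit of an edge into the edge.

Proof of `edge_map`. If `ELim U p x e` is empty take `v = 0`. Otherwise let `y0 ∈ ELim`,
`z k` in the segment with `z k - x k → y0` (`mem_ELim_iff`), `w = dL U p e`, `‖w‖ = 1`. Let `ℓ` be a
linear functional on `P` with `ℓ w = 1` and `|ℓ u| ≤ ‖u‖` for all `u` (a coordinate divided by the
coordinate of `w` of modulus 1; or `exists_dual_vector`). Put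
`v k y = (z k - x k - y0) + ℓ (y - y0) • (dk p e k - w)`. It is Lipschitz with the constant
`‖dk p e k - w‖ → 0`, and for `‖y‖ ≤ R`
`‖v k y‖ ≤ ‖z k - x k - y0‖ + (R + ‖y0‖) * ‖dk p e k - w‖ → 0` (`dL_spec`). For `y ∈ ELim` we have
`y = y0 + s • w` (`ELim_sub`), `ℓ (y - y0) = s`, so
`x k + (y + v k y) = z k + s • dk p e k` is on the line of the edge, at distance `‖v k y‖` from
`x k + y`. By `ELim_line` every `y ∈ ELim`, `y ∉ VLim` has `r_y > 0` such that eventually every
point `z` of the line with `dist (z - x k) y < r_y` is in the segment. The set `S` of the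
`y ∈ ELim` with `‖y‖ ≤ R` and distance `≥ r` from the finite set `VLim` is compact; finitely many
balls of radius `r_y / 2` cover it; with `r0 = min r_y / 2`: eventually for all `y ∈ S` every point
`z` of the line with `dist (z - x k) y < r0` is in the segment. Eventually `‖v k y‖ < r0`.
(A point of the line has the form `p k e.1 + t • (p k e.2 - p k e.1)`.)
-/

namespace Pool.Agent.MP4eed4eX

open MeasureTheory Set Filter Topology Pool.Agent.MP4eed4eP

variable {n : ℕ} {U : Ultrafilter ℕ} {p : ℕ → Fin n → P} {E : Finset (Fin n × Fin n)}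

private theorem segParamA {a b z : P} (hz : z ∈ segment ℝ a b) :
    ∃ t : ℝ, z = a + t • (b - a) := by
  rw [segment_eq_image'] at hz
  obtain ⟨t, -, rfl⟩ := hz
  exact ⟨t, rfl⟩

/-- A functional of norm at most one which takes the value one at a unit vector. -/
private theorem exists_fun {w : P} (hw : ‖w‖ = 1) :
    ∃ l : P →L[ℝ] ℝ, l w = 1 ∧ ∀ u, |l u| ≤ ‖u‖ := by
  have hne : w ≠ 0 := by
    intro h0
    rw [h0, norm_zero] at hw
    norm_num at hw
  obtain ⟨g, hg1, hg2⟩ := exists_dual_vector ℝ w (by simpa using hne)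
  refine ⟨g, ?_, fun u => ?_⟩
  · rw [hg2, hw]
    simp
  · have := g.le_opNorm u
    rwa [hg1, one_mul, Real.norm_eq_abs] at this

theorem edge_map {e : Fin n × Fin n} (h : ∀ k, p k e.1 ≠ p k e.2) (x : ℕ → P) (R : ℝ) {r : ℝ}
    (hr : 0 < r) : ∃ v : ℕ → P → P,
    (∀ κ : ℝ, 0 < κ → ∀ᶠ k in (U : Filter ℕ), LipschitzWith κ.toNNReal (v k) ∧
      ∀ y, ‖y‖ ≤ R → ‖v k y‖ ≤ κ) ∧
    ∀ᶠ k in (U : Filter ℕ), ∀ y ∈ ELim U p x e, ‖y‖ ≤ R → (∀ z ∈ VLim U p x, r ≤ dist y z) →
      x k + (y + v k y) ∈ segment ℝ (p k e.1) (p k e.2) := by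
  classical
  rcases Set.eq_empty_or_nonempty (ELim U p x e) with hE | ⟨y0, hy0⟩
  · refine ⟨fun _ _ => 0, fun κ hκ => Eventually.of_forall fun k => ⟨?_, ?_⟩, ?_⟩
    · exact (LipschitzWith.const (0 : P)).weaken (zero_le)
    · intro y _
      simpa using hκ.le
    · refine Eventually.of_forall fun k y hy => ?_
      rw [hE] at hy
      exact absurd hy (Set.notMem_empty y)
  obtain ⟨z, hz, hzt⟩ := mem_ELim_iff.1 hy0
  obtain ⟨hw1, hwt⟩ := dL_spec (U := U) h
  obtain ⟨l, hl1, hl2⟩ := exists_fun hw1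
  set w : P := dL U p e with hw
  set v : ℕ → P → P := fun k y => (z k - x k - y0) + l (y - y0) • (dk p e k - w) with hv
  have hzt0 : Tendsto (fun k => ‖z k - x k - y0‖) (U : Filter ℕ) (𝓝 0) := by
    have h1 := (hzt.sub_const y0).norm
    rwa [sub_self, norm_zero] at h1
  have hwt0 : Tendsto (fun k => ‖dk p e k - w‖) (U : Filter ℕ) (𝓝 0) := by
    have h1 := (hwt.sub_const w).norm
    rwa [sub_self, norm_zero] at h1
  have hbd : Tendsto (fun k => ‖z k - x k - y0‖ + (|R| + ‖y0‖) * ‖dk p e k - w‖)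
      (U : Filter ℕ) (𝓝 0) := by
    have h1 := hzt0.add (hwt0.const_mul (|R| + ‖y0‖))
    rwa [mul_zero, add_zero] at h1
  have hvb : ∀ k y, ‖y‖ ≤ R →
      ‖v k y‖ ≤ ‖z k - x k - y0‖ + (|R| + ‖y0‖) * ‖dk p e k - w‖ := by
    intro k y hy
    have h1 : |l (y - y0)| ≤ |R| + ‖y0‖ :=
      (hl2 _).trans ((norm_sub_le _ _).trans (by linarith [le_abs_self R]))
    calc ‖v k y‖ ≤ ‖z k - x k - y0‖ + ‖l (y - y0) • (dk p e k - w)‖ := norm_add_le _ _
      _ = ‖z k - x k - y0‖ + |l (y - y0)| * ‖dk p e k - w‖ := by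
          rw [norm_smul, Real.norm_eq_abs]
      _ ≤ _ := by
          gcongr
  refine ⟨v, fun κ hκ => ?_, ?_⟩
  · filter_upwards [hwt0.eventually (gt_mem_nhds hκ), hbd.eventually (gt_mem_nhds hκ)]
      with k hk1 hk2
    refine ⟨?_, fun y hy => (hvb k y hy).trans hk2.le⟩
    refine LipschitzWith.of_dist_le_mul fun a b => ?_
    rw [Real.coe_toNNReal κ hκ.le, dist_eq_norm, dist_eq_norm]
    have h1 : v k a - v k b = l (a - b) • (dk p e k - w) := by
      simp only [hv]
      have h2 : l (a - b) = l (a - y0) - l (b - y0) := by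
        rw [← map_sub]
        congr 1
        abel
      rw [h2, sub_smul]
      abel
    rw [h1, norm_smul, Real.norm_eq_abs, mul_comm]
    have h3 := hl2 (a - b)
    exact mul_le_mul hk1.le h3 (abs_nonneg _) hκ.le
  · set S : Set P := {y | y ∈ ELim U p x e ∧ ‖y‖ ≤ R ∧ ∀ z ∈ VLim U p x, r ≤ dist y z} with hS
    have hScl : IsClosed S := by
      have h1 : S = ELim U p x e ∩ ({y | ‖y‖ ≤ R} ∩ ⋂ z ∈ VLim U p x, {y | r ≤ dist y z}) := by
        ext y
        simp only [hS, Set.mem_ofPred_eq, mem_inter_iff, mem_iInter]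
      rw [h1]
      refine (isClosed_ELim e).inter ((isClosed_le continuous_norm continuous_const).inter ?_)
      exact isClosed_biInter fun z _ =>
        isClosed_le continuous_const (continuous_id.dist continuous_const)
    have hSc : IsCompact S := by
      refine Metric.isCompact_of_isClosed_isBounded hScl ?_
      refine (Metric.isBounded_closedBall (x := (0 : P)) (r := R)).subset fun y hy => ?_
      simpa using hy.2.1
    have hex : ∀ y ∈ S, ∃ r > 0, ∀ᶠ k in (U : Filter ℕ), ∀ t : ℝ,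
        dist (p k e.1 + t • (p k e.2 - p k e.1) - x k) y < r →
          p k e.1 + t • (p k e.2 - p k e.1) ∈ openSegment ℝ (p k e.1) (p k e.2) := by
      intro y hy
      obtain ⟨ρ, hρ, h1, -⟩ := ELim_line h hy.1 (fun h2 => by
        have := hy.2.2 y h2
        rw [dist_self] at this
        linarith)
      exact ⟨ρ, hρ, h1⟩
    choose! ρ hρ hρe using hex
    obtain ⟨T, hTS, hT⟩ := hSc.elim_nhds_subcover (fun y => Metric.ball y (ρ y / 2))
      (fun y hy => Metric.ball_mem_nhds y (half_pos (hρ y hy)))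
    have hevT : ∀ᶠ k in (U : Filter ℕ), ∀ y ∈ T, ∀ t : ℝ,
        dist (p k e.1 + t • (p k e.2 - p k e.1) - x k) y < ρ y →
          p k e.1 + t • (p k e.2 - p k e.1) ∈ openSegment ℝ (p k e.1) (p k e.2) :=
      (Filter.eventually_all_finset T).2 fun y hy => hρe y (hTS y hy)
    have hevN : ∀ᶠ k in (U : Filter ℕ), ∀ y ∈ T,
        ‖z k - x k - y0‖ + (|R| + ‖y0‖) * ‖dk p e k - w‖ < ρ y / 2 :=
      (Filter.eventually_all_finset T).2 fun y hy =>
        hbd.eventually (gt_mem_nhds (half_pos (hρ y (hTS y hy))))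
    filter_upwards [hevT, hevN] with k hk1 hk2 y hyE hyR hyV
    have hyS : y ∈ S := ⟨hyE, hyR, hyV⟩
    obtain ⟨y1, hy1, hyy1⟩ := mem_iUnion₂.1 (hT hyS)
    obtain ⟨s, -, hs⟩ := ELim_sub h hy0 hyE
    have hls : l (y - y0) = s := by
      rw [hs, add_sub_cancel_left, map_smul, hl1, smul_eq_mul, mul_one]
    have hform : x k + (y + v k y) = z k + s • dk p e k := by
      simp only [hv]
      rw [hls, smul_sub]
      have h2 : y = y0 + s • w := hs
      rw [h2]
      abel
    obtain ⟨t0, hz0⟩ := segParamA (hz k)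
    have hform2 : z k + s • dk p e k =
        p k e.1 + (t0 + s * ‖p k e.2 - p k e.1‖⁻¹) • (p k e.2 - p k e.1) := by
      rw [hz0]
      unfold dk
      rw [smul_smul, add_smul, add_assoc]
    rw [hform, hform2]
    apply openSegment_subset_segment
    apply hk1 y1 hy1
    rw [← hform2, ← hform]
    have h3 : dist (x k + (y + v k y) - x k) y = ‖v k y‖ := by
      rw [dist_eq_norm]
      congr 1
      abel
    have h4 : dist y y1 < ρ y1 / 2 := hyy1
    have h5 := hvb k y hyR
    have h6 := hk2 y1 hy1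
    have h7 := dist_triangle (x k + (y + v k y) - x k) y y1
    linarith

end Pool.Agent.MP4eed4eX
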