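import Pool.Agent.Lib.MP_4eed4e_an_XG.GFr

set_option autoImplicit false

/-!
Project X, block MG, module GRay: a ray in a set which is locally a line runs into a vertex.

Proof of `ray`. Let `T = {t | 0 ≤ t ∧ ∀ s, 0 ≤ s → s ≤ t → y + s • w ∈ F ∧ y + s • w ∉ V}`. It
contains a small positive number (`h`, `V` closed) and it is bounded (`F` is bounded,
`‖y + t • w‖ ≥ t - ‖y‖`). Let `t = sSup T > 0`. For `0 ≤ s < t` the point `y + s • w` is in `F` and
not in `V`, so `a = y + t • w ∈ F` (`F` closed). Suppose `a ∉ V`. By `hl` there are `w'`, `r'` for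
`a`. For `s < t` close to `t` the point `a - (t - s) • w` is in `F`, so it is `a + s' • w'`; so `w'`
is a multiple of `w` and `a + s • w ∈ F` for all `|s| < r'`, and not in `V` for small `|s|`; so
`t + ε ∈ T` for some `ε > 0`, a contradiction.
-/

namespace Pool.Agent.MP4eed4eX

open MeasureTheory Set Filter Topology Pool.Agent.MP4eed4eP

theorem ray {F V : Set P} (hc : IsCompact F) (hV : IsClosed V) (hl : LocLine F V) {y w : P}
    (hyV : y ∉ V) (hw : ‖w‖ = 1) {r : ℝ} (hr : 0 < r)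
    (h : ∀ s : ℝ, |s| < r → y + s • w ∈ F) :
    ∃ t > 0, y + t • w ∈ V ∧ y + t • w ∈ F ∧
      ∀ s : ℝ, 0 ≤ s → s < t → y + s • w ∈ F ∧ y + s • w ∉ V := by
  have hdist : ∀ (z : P) (s : ℝ), dist (z + s • w) z = |s| := by
    intro z s
    rw [dist_eq_norm, add_sub_cancel_left, norm_smul, hw, mul_one, Real.norm_eq_abs]
  have hball : ∀ z : P, z ∉ V → ∃ δ > 0, ∀ s : ℝ, |s| < δ → z + s • w ∉ V := by
    intro z hz
    obtain ⟨δ, hδ, hδ'⟩ := Metric.isOpen_iff.1 hV.isOpen_compl z hz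
    refine ⟨δ, hδ, fun s hs => ?_⟩
    exact hδ' (Metric.mem_ball.2 (by rw [hdist]; exact hs))
  obtain ⟨T, hT⟩ : ∃ T : Set ℝ, T = {t : ℝ | 0 ≤ t ∧ ∀ s : ℝ, 0 ≤ s → s ≤ t →
      y + s • w ∈ F ∧ y + s • w ∉ V} := ⟨_, rfl⟩
  obtain ⟨δ, hδ, hδ'⟩ := hball y hyV
  have hm : 0 < min r δ := lt_min hr hδ
  have ht0 : min r δ / 2 ∈ T := by
    rw [hT]
    refine ⟨by linarith, fun s hs0 hs1 => ?_⟩
    have h1 : |s| < min r δ := by rw [abs_of_nonneg hs0]; linarith
    exact ⟨h s (h1.trans_le (min_le_left _ _)), hδ' s (h1.trans_le (min_le_right _ _))⟩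
  obtain ⟨R, hR⟩ := hc.isBounded.exists_norm_le
  have hbdd : BddAbove T := by
    refine ⟨R + ‖y‖, fun t ht => ?_⟩
    rw [hT] at ht
    have h1 := hR _ (ht.2 t ht.1 le_rfl).1
    have h2 : ‖t • w‖ ≤ ‖y + t • w‖ + ‖y‖ := by
      have h3 := norm_sub_le (y + t • w) y
      rwa [add_sub_cancel_left] at h3
    rw [norm_smul, hw, mul_one, Real.norm_eq_abs, abs_of_nonneg ht.1] at h2
    linarith
  obtain ⟨t, ht⟩ : ∃ t : ℝ, t = sSup T := ⟨_, rfl⟩
  have htpos : 0 < t := by
    have h1 : min r δ / 2 ≤ t := by rw [ht]; exact le_csSup hbdd ht0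
    linarith
  have hbelow : ∀ s : ℝ, 0 ≤ s → s < t → y + s • w ∈ F ∧ y + s • w ∉ V := by
    intro s hs0 hs1
    rw [ht] at hs1
    obtain ⟨t', ht', hlt⟩ := exists_lt_of_lt_csSup ⟨_, ht0⟩ hs1
    rw [hT] at ht'
    exact ht'.2 s hs0 hlt.le
  have haF : y + t • w ∈ F := by
    by_contra hcon
    obtain ⟨ε, hε, hε'⟩ := Metric.isOpen_iff.1 hc.isClosed.isOpen_compl _ hcon
    have hm2 : 0 < min ε t := lt_min hε htpos
    have hm3 : min ε t ≤ t := min_le_right _ _
    have hm4 : min ε t ≤ ε := min_le_left _ _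
    have h1 := (hbelow (t - min ε t / 2) (by linarith) (by linarith)).1
    refine hε' (Metric.mem_ball.2 ?_) h1
    have e : y + (t - min ε t / 2) • w = (y + t • w) + (-(min ε t / 2)) • w := by
      rw [add_assoc, ← add_smul, ← sub_eq_add_neg]
    rw [e, hdist, abs_neg, abs_of_pos (by linarith)]
    linarith
  refine ⟨t, htpos, ?_, haF, hbelow⟩
  by_contra haV
  obtain ⟨w', hw', r', hr', hloc⟩ := hl _ haF haV
  obtain ⟨δ', hδ1, hδ2⟩ := hball _ haV
  obtain ⟨ε, hεdef⟩ : ∃ ε : ℝ, ε = min (min r' δ') t / 2 := ⟨_, rfl⟩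
  have hm2 : 0 < min (min r' δ') t := lt_min (lt_min hr' hδ1) htpos
  have hε : 0 < ε := by rw [hεdef]; linarith
  have hεt : ε < t := by
    have : min (min r' δ') t ≤ t := min_le_right _ _
    rw [hεdef]; linarith
  have hεr : ε < r' := by
    have : min (min r' δ') t ≤ r' := (min_le_left _ _).trans (min_le_left _ _)
    rw [hεdef]; linarith
  have hεδ : ε < δ' := by
    have : min (min r' δ') t ≤ δ' := (min_le_left _ _).trans (min_le_right _ _)
    rw [hεdef]; linarith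
  have hz : (y + t • w) + (-ε) • w ∈ F := by
    have h1 := (hbelow (t - ε) (by linarith) (by linarith)).1
    have e : y + (t - ε) • w = (y + t • w) + (-ε) • w := by
      rw [add_assoc, ← add_smul, ← sub_eq_add_neg]
    rwa [e] at h1
  obtain ⟨s', hs'⟩ := (hloc _ (by rw [hdist, abs_neg, abs_of_pos hε]; exact hεr)).1 hz
  have hs2 : (-ε) • w = s' • w' := add_left_cancel hs'
  have hline : ∀ s : ℝ, |s| ≤ ε → (y + t • w) + s • w ∈ F ∧ (y + t • w) + s • w ∉ V := by
    intro s hs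
    refine ⟨(hloc _ (by rw [hdist]; linarith)).2 ⟨(-(s / ε)) * s', ?_⟩, hδ2 s (by linarith)⟩
    rw [mul_smul, ← hs2, smul_smul]
    congr 2
    field_simp
  have hmem : t + ε ∈ T := by
    rw [hT]
    refine ⟨by linarith, fun s hs0 hs1 => ?_⟩
    rcases lt_or_ge s t with h1 | h1
    · exact hbelow s hs0 h1
    · have h2 := hline (s - t) (by rw [abs_of_nonneg (by linarith)]; linarith)
      have e : (y + t • w) + (s - t) • w = y + s • w := by
        rw [add_assoc, ← add_smul, add_sub_cancel]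
      rwa [e] at h2
  have h1 : t + ε ≤ t := by
    have := le_csSup hbdd hmem
    rwa [← ht] at this
  linarith

end Pool.Agent.MP4eed4eX
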