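import Pool.Agent.Lib.MP_4eed4e_an_XG.GRay

set_option autoImplicit false

/-!
Project X, block MG, module GSeg: a bounded open set whose frontier is locally a line off a finite
set is a figure.

Proof of `exists_fig`. `F = frontier D` is compact. Let `E'` be the set of the pairs `(i, j)`,
`i < j`, with `openSegment ℝ (q i) (q j) ⊆ F \ V` (classical `Finset.filter`).

* `F = Gr q E'`. Inclusion of `Gr` in `F`: `q i ∈ F`, a closed segment is the open segment with the
  two ends. Conversely let `y ∈ F`. If `y ∈ V` then `y ∈ range q`. If `y ∉ V` take `w`, `r` from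
  `hl`; `ray` for `w` and for `-w` gives `t, t' > 0` with `y + t • w = q i`, `y - t' • w = q j`, and
  all points between them are in `F \ V`; `i ≠ j`; so `(i, j)` or `(j, i)` is in `E'`
  (`openSegment_symm`) and `y` is in the segment.
* `vert`: `q k ∈ V`. `disj` (this is `seg_unique`): let `y` be in the open segments
  `(q e.1, q e.2)`, `(q f.1, q f.2)`, `e ≠ f`. With `w`, `r` for `y ∈ F \ V`: the points of the two
  open segments near `y` are in `F`, so on the line `y + ℝ w`; so all four ends are on this line,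
  `q e.1 = y + α • w`, `q e.2 = y + β • w` with `α β < 0`, `q f.1 = y + γ • w`,
  `q f.2 = y + δ • w` with `γ δ < 0`. If the positive numbers of the two pairs are different, the
  end
  belonging to the smaller one is in the other open segment, but it is in `V`: contradiction. The
  same for the negative numbers. So the two pairs of points are equal as sets; `q` is injective and
  `e.1 < e.2`, `f.1 < f.2`, so `e = f`.
-/

namespace Pool.Agent.MP4eed4eX

open MeasureTheory Set Filter Topology Pool.Agent.MP4eed4eP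

private theorem GSeg_line {F V : Set P} {a b y w : P} {r : ℝ} (ha : a ∈ V)
    (hab : openSegment ℝ a b ⊆ F \ V) (hy : y ∈ openSegment ℝ a b) (hr : 0 < r)
    (hw : ∀ z, dist z y < r → (z ∈ F ↔ ∃ s : ℝ, z = y + s • w)) :
    ∃ α β : ℝ, α * β < 0 ∧ a = y + α • w ∧ b = y + β • w := by
  have hyV : y ∉ V := (hab hy).2
  obtain ⟨u, v, hu, hv, huv, hyy⟩ := hy
  have hu1 : u = 1 - v := by linarith
  have hya : y = a + v • (b - a) := by
    rw [← hyy, hu1, sub_smul, one_smul, smul_sub]
    abel
  have he : b - a ≠ 0 := by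
    intro h0
    rw [h0, smul_zero, add_zero] at hya
    exact hyV (hya ▸ ha)
  have hn : 0 < ‖b - a‖ := norm_pos_iff.2 he
  obtain ⟨s, hs0, hs1, hs2⟩ : ∃ s : ℝ, 0 < s ∧ s < u ∧ s * ‖b - a‖ < r := by
    refine ⟨min u (r / ‖b - a‖) / 2, ?_, ?_, ?_⟩
    · have : 0 < min u (r / ‖b - a‖) := lt_min hu (div_pos hr hn)
      linarith
    · have h1 : 0 < min u (r / ‖b - a‖) := lt_min hu (div_pos hr hn)
      have h2 := min_le_left u (r / ‖b - a‖)
      linarith
    · have h1 : 0 < min u (r / ‖b - a‖) := lt_min hu (div_pos hr hn)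
      have h2 := min_le_right u (r / ‖b - a‖)
      have h3 : min u (r / ‖b - a‖) * ‖b - a‖ ≤ r := by
        calc min u (r / ‖b - a‖) * ‖b - a‖ ≤ r / ‖b - a‖ * ‖b - a‖ :=
              mul_le_mul_of_nonneg_right h2 hn.le
          _ = r := div_mul_cancel₀ r hn.ne'
      have h4 : 0 < min u (r / ‖b - a‖) * ‖b - a‖ := mul_pos h1 hn
      calc min u (r / ‖b - a‖) / 2 * ‖b - a‖ = min u (r / ‖b - a‖) * ‖b - a‖ / 2 := by ring
        _ < r := by linarith
  have hz : y + s • (b - a) ∈ openSegment ℝ a b := by
    refine ⟨u - s, v + s, by linarith, by linarith, by linarith, ?_⟩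
    rw [hya, hu1]
    module
  have hd : dist (y + s • (b - a)) y < r := by
    rw [dist_eq_norm, add_sub_cancel_left, norm_smul, Real.norm_eq_abs, abs_of_pos hs0]
    exact hs2
  obtain ⟨s', hs'⟩ := (hw _ hd).1 (hab hz).1
  have h5 : s • (b - a) = s' • w := add_left_cancel hs'
  have h6 : b - a = (s' / s) • w := by
    rw [div_eq_inv_mul, mul_smul, ← h5, smul_smul, inv_mul_cancel₀ hs0.ne', one_smul]
  have hmu : s' / s ≠ 0 := by
    intro h0
    rw [h0, zero_smul] at h6
    exact he h6
  have hsq : 0 < (s' / s) ^ 2 := by positivity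
  refine ⟨-(v * (s' / s)), u * (s' / s), ?_, ?_, ?_⟩
  · have : -(v * (s' / s)) * (u * (s' / s)) = -((u * v) * (s' / s) ^ 2) := by ring
    rw [this]
    have h7 : 0 < (u * v) * (s' / s) ^ 2 := mul_pos (mul_pos hu hv) hsq
    linarith
  · rw [neg_smul, mul_smul, ← h6, hya]
    abel
  · rw [mul_smul, ← h6, hya, hu1]
    module

private theorem GSeg_mem {a b y w : P} {α β t : ℝ} (ha : a = y + α • w) (hb : b = y + β • w)
    (h1 : α < t) (h2 : t < β) : y + t • w ∈ openSegment ℝ a b := by
  have h3 : 0 < β - α := by linarith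
  refine ⟨(β - t) / (β - α), (t - α) / (β - α), div_pos (by linarith) h3,
    div_pos (by linarith) h3, ?_, ?_⟩
  · rw [← add_div]
    have : β - t + (t - α) = β - α := by ring
    rw [this, div_self h3.ne']
  · rw [ha, hb]
    have h4 : (β - t) / (β - α) + (t - α) / (β - α) = 1 := by
      rw [← add_div]
      have : β - t + (t - α) = β - α := by ring
      rw [this, div_self h3.ne']
    have h5 : (β - t) / (β - α) * α + (t - α) / (β - α) * β = t := by
      field_simp
      ring
    calc ((β - t) / (β - α)) • (y + α • w) + ((t - α) / (β - α)) • (y + β • w)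
        = ((β - t) / (β - α) + (t - α) / (β - α)) • y +
          ((β - t) / (β - α) * α + (t - α) / (β - α) * β) • w := by module
      _ = y + t • w := by rw [h4, h5, one_smul]

private theorem GSeg_ord {V : Set P} {y w : P} {a b c d : ℝ} (hc0 : c < 0) (hd0 : 0 < d)
    (ha0 : a < 0) (hb0 : 0 < b)
    (ha : y + a • w ∈ V) (hb : y + b • w ∈ V) (hc : y + c • w ∈ V) (hd : y + d • w ∈ V)
    (h1 : ∀ t, a < t → t < b → y + t • w ∉ V) (h2 : ∀ t, c < t → t < d → y + t • w ∉ V) :
    a = c ∧ b = d := by
  constructor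
  · rcases lt_trichotomy a c with h | h | h
    · exact absurd hc (h1 c h (by linarith))
    · exact h
    · exact absurd ha (h2 a h (by linarith))
  · rcases lt_trichotomy b d with h | h | h
    · exact absurd hb (h2 b (by linarith) h)
    · exact h
    · exact absurd hd (h1 d (by linarith) h)

private theorem GSeg_notV {F V : Set P} {a b y w : P} {α β : ℝ}
    (hab : openSegment ℝ a b ⊆ F \ V) (ha : a = y + α • w) (hb : b = y + β • w) :
    ∀ t, α < t → t < β → y + t • w ∉ V :=
  fun _ h1 h2 => (hab (GSeg_mem ha hb h1 h2)).2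

theorem seg_unique {F V : Set P} (hl : LocLine F V) {a b c d : P} (ha : a ∈ V) (hb : b ∈ V)
    (hc : c ∈ V) (hd : d ∈ V) (h1 : openSegment ℝ a b ⊆ F \ V) (h2 : openSegment ℝ c d ⊆ F \ V)
    (h : ¬ Disjoint (openSegment ℝ a b) (openSegment ℝ c d)) :
    (a = c ∧ b = d) ∨ (a = d ∧ b = c) := by
  rw [Set.not_disjoint_iff] at h
  obtain ⟨y, hy1, hy2⟩ := h
  obtain ⟨w, -, r, hr, hw⟩ := hl y (h1 hy1).1 (h1 hy1).2
  obtain ⟨α, β, hαβ, ea, eb⟩ := GSeg_line ha h1 hy1 hr hw
  obtain ⟨γ, δ, hγδ, ec, ed⟩ := GSeg_line hc h2 hy2 hr hw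
  have h1' : openSegment ℝ b a ⊆ F \ V := by rw [openSegment_symm]; exact h1
  have h2' : openSegment ℝ d c ⊆ F \ V := by rw [openSegment_symm]; exact h2
  have ha' : y + α • w ∈ V := ea ▸ ha
  have hb' : y + β • w ∈ V := eb ▸ hb
  have hc' : y + γ • w ∈ V := ec ▸ hc
  have hd' : y + δ • w ∈ V := ed ▸ hd
  rcases mul_neg_iff.1 hαβ with ⟨p1, p2⟩ | ⟨p1, p2⟩ <;>
    rcases mul_neg_iff.1 hγδ with ⟨p3, p4⟩ | ⟨p3, p4⟩
  · obtain ⟨e1, e2⟩ := GSeg_ord p4 p3 p2 p1 hb' ha' hd' hc' (GSeg_notV h1' eb ea)
      (GSeg_notV h2' ed ec)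
    left
    exact ⟨by rw [ea, ec, e2], by rw [eb, ed, e1]⟩
  · obtain ⟨e1, e2⟩ := GSeg_ord p3 p4 p2 p1 hb' ha' hc' hd' (GSeg_notV h1' eb ea)
      (GSeg_notV h2 ec ed)
    right
    exact ⟨by rw [ea, ed, e2], by rw [eb, ec, e1]⟩
  · obtain ⟨e1, e2⟩ := GSeg_ord p4 p3 p1 p2 ha' hb' hd' hc' (GSeg_notV h1 ea eb)
      (GSeg_notV h2' ed ec)
    right
    exact ⟨by rw [ea, ed, e1], by rw [eb, ec, e2]⟩
  · obtain ⟨e1, e2⟩ := GSeg_ord p3 p4 p1 p2 ha' hb' hc' hd' (GSeg_notV h1 ea eb)
      (GSeg_notV h2 ec ed)
    left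
    exact ⟨by rw [ea, ec, e1], by rw [eb, ed, e2]⟩

theorem exists_fig {D : Set P} (hO : IsOpen D) (hb : Bornology.IsBounded D) {V : Set P}
    (hV : V.Finite) (hl : LocLine (frontier D) V) {M : ℕ} (q : Fin M → P)
    (hq : Function.Injective q) (hr : range q = V ∩ frontier D) :
    ∃ E' : Finset (Fin M × Fin M), Fig D q E' := by
  classical
  have hFc : IsCompact (frontier D) :=
    Metric.isCompact_of_isClosed_isBounded isClosed_frontier
      (hb.closure.subset frontier_subset_closure)
  have hqV : ∀ k, q k ∈ V := fun k => (hr ▸ mem_range_self k : q k ∈ V ∩ frontier D).1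
  have hqF : ∀ k, q k ∈ frontier D := fun k => (hr ▸ mem_range_self k : q k ∈ V ∩ frontier D).2
  refine ⟨Finset.univ.filter fun e : Fin M × Fin M => e.1 < e.2 ∧
    openSegment ℝ (q e.1) (q e.2) ⊆ frontier D \ V, ⟨⟨hq, ?_, ?_, ?_⟩, hO, hb, ?_⟩⟩
  · intro e he
    exact (Finset.mem_filter.1 he).2.1
  · intro e he k hk
    exact ((Finset.mem_filter.1 he).2.2 hk).2 (hqV k)
  · intro e he f hf hef
    by_contra hcon
    have he' := (Finset.mem_filter.1 he).2
    have hf' := (Finset.mem_filter.1 hf).2
    rcases seg_unique hl (hqV e.1) (hqV e.2) (hqV f.1) (hqV f.2) he'.2 hf'.2 hcon with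
      ⟨h1, h2⟩ | ⟨h1, h2⟩
    · exact hef (Prod.ext (hq h1) (hq h2))
    · have h3 := hq h1
      have h4 := hq h2
      have h5 := he'.1
      rw [h3, h4] at h5
      exact lt_asymm h5 hf'.1
  · apply Subset.antisymm
    · intro y hy
      by_cases hyV : y ∈ V
      · left
        rw [hr]
        exact ⟨hyV, hy⟩
      · right
        obtain ⟨w, hw, r, hr0, hloc⟩ := hl y hy hyV
        have hdist : ∀ s : ℝ, dist (y + s • w) y = |s| := by
          intro s
          rw [dist_eq_norm, add_sub_cancel_left, norm_smul, hw, mul_one, Real.norm_eq_abs]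
        have hin : ∀ s : ℝ, |s| < r → y + s • w ∈ frontier D := fun s hs =>
          (hloc _ (by rw [hdist]; exact hs)).2 ⟨s, rfl⟩
        obtain ⟨t, ht, htV, htF, hts⟩ := ray hFc hV.isClosed hl hyV hw hr0 hin
        obtain ⟨t', ht', htV', htF', hts'⟩ := ray hFc hV.isClosed hl hyV
          (w := -w) (by rw [norm_neg, hw]) hr0 (fun s hs => by
            have h1 := hin (-s) (by rw [abs_neg]; exact hs)
            rwa [neg_smul, ← smul_neg] at h1)
        have hi : y + t • w ∈ range q := by rw [hr]; exact ⟨htV, htF⟩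
        have hj : y + t' • -w ∈ range q := by rw [hr]; exact ⟨htV', htF'⟩
        obtain ⟨i, hi⟩ := hi
        obtain ⟨j, hj⟩ := hj
        have hj2 : q j = y + (-t') • w := by rw [hj, smul_neg, neg_smul]
        have hseg : openSegment ℝ (q j) (q i) ⊆ frontier D \ V := by
          rintro z ⟨u, v, hu, hv, huv, rfl⟩
          have e : u • q j + v • q i = y + (v * t - u * t') • w := by
            rw [hj2, hi]
            have hu1 : u = 1 - v := by linarith
            rw [hu1]
            module
          rw [e]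
          rcases le_or_gt 0 (v * t - u * t') with h0 | h0
          · refine hts _ h0 ?_
            have h2 : v * t < t := by
              have : v < 1 := by linarith
              calc v * t < 1 * t := mul_lt_mul_of_pos_right this ht
                _ = t := one_mul t
            have h3 : 0 < u * t' := mul_pos hu ht'
            linarith
          · have h1 := hts' (-(v * t - u * t')) (by linarith) (by
              have h2 : u * t' < t' := by
                have : u < 1 := by linarith
                calc u * t' < 1 * t' := mul_lt_mul_of_pos_right this ht'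
                  _ = t' := one_mul t'
              have h3 : 0 < v * t := mul_pos hv ht
              linarith)
            rwa [neg_smul, smul_neg, neg_neg] at h1
        have hyseg : y ∈ segment ℝ (q j) (q i) := by
          apply openSegment_subset_segment
          have h1 := GSeg_mem (t := 0) hj2 hi (by linarith) ht
          rwa [zero_smul, add_zero] at h1
        have hw0 : w ≠ 0 := by
          intro h0
          rw [h0, norm_zero] at hw
          exact zero_ne_one hw
        have hij : i ≠ j := by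
          intro h0
          rw [h0, hj2] at hi
          have h1 : (-t') • w = t • w := add_left_cancel hi
          have h2 : (t + t') • w = 0 := by
            rw [add_smul, ← h1, neg_smul, neg_add_cancel]
          rcases smul_eq_zero.1 h2 with h3 | h3
          · linarith
          · exact hw0 h3
        rcases lt_or_gt_of_ne hij with h1 | h1
        · refine mem_iUnion₂.2 ⟨(i, j), Finset.mem_filter.2 ⟨Finset.mem_univ _, h1, ?_⟩, ?_⟩
          · rw [openSegment_symm]
            exact hseg
          · rw [segment_symm]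
            exact hyseg
        · exact mem_iUnion₂.2 ⟨(j, i), Finset.mem_filter.2 ⟨Finset.mem_univ _, h1, hseg⟩, hyseg⟩
    · rintro y (⟨k, rfl⟩ | hy)
      · exact hqF k
      · obtain ⟨e, he, hye⟩ := mem_iUnion₂.1 hy
        rw [← insert_endpoints_openSegment] at hye
        rcases hye with rfl | rfl | hye
        · exact hqF _
        · exact hqF _
        · exact ((Finset.mem_filter.1 he).2.2 hye).1

end Pool.Agent.MP4eed4eX
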