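import Pool.Agent.Lib.MP_4eed4e_an_XG.GFr

set_option autoImplicit false

/-!
Project X, block MG, module GSum: a union of sets which are far apart.

Let `S = ⋃ c ∈ C, (fun y => y + s c) '' O c`.

* `sum_near`: let `c ∈ C`, `dist y (s c) < 2 * R`. All points `z` with `dist z (s c) < 2 * R` which
  are in `S` are in `(fun y => y + s c) '' O c` (`z = y' + s c'`, `y' ∈ ball 0 R`, `c' ≠ c` would
  give `dist (s c) (s c') < 3 * R`). So `S` and the shifted `O c` agree in an open neighbourhood of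
  `y`, and `y ∈ frontier S ↔ y - s c ∈ frontier (O c)`.
* `sum_frontier`: `y ∈ frontier S` is in the closure of the finite union `S`, so in the closure of
  some `(fun y => y + s c) '' O c`, so `y - s c ∈ closure (O c) ⊆ closedBall 0 R`, and
  `dist y (s c) ≤ R < 2 * R`; `sum_near`.
* `sum_loc`: for `y ∈ frontier S` off the shifted `V c` take `c` from `sum_frontier`,
  `y - s c ∈ frontier (O c)`, `y - s c ∉ V c`; `w`, `r` from `hl c` for `y - s c`; with
  `min r (R / 2)` and `sum_near` (for all `z` close to `y`) the same `w` works for `y`.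
-/

namespace Pool.Agent.MP4eed4eX

open MeasureTheory Set Filter Topology Pool.Agent.MP4eed4eP

variable {n : ℕ} {C : Finset (Fin n)} {O V : Fin n → Set P} {s : Fin n → P} {R : ℝ}

private theorem image_sub {A : Set P} {a : P} {R R' : ℝ} (h : A ⊆ Metric.ball 0 R)
    (hR : R ≤ R') : (fun y => y + a) '' A ⊆ Metric.closedBall a R' := by
  rintro _ ⟨z, hz, rfl⟩
  have h1 := h hz
  rw [Metric.mem_ball, dist_zero_right] at h1
  rw [Metric.mem_closedBall, dist_eq_norm]
  simpa using h1.le.trans hR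

theorem sum_open (hO : ∀ c ∈ C, IsOpen (O c)) :
    IsOpen (⋃ c ∈ C, (fun y => y + s c) '' O c) := by
  exact isOpen_biUnion fun c hc => (Homeomorph.addRight (s c)).isOpenMap _ (hO c hc)

theorem sum_bdd (hb : ∀ c ∈ C, O c ⊆ Metric.ball 0 R) :
    Bornology.IsBounded (⋃ c ∈ C, (fun y => y + s c) '' O c) := by
  refine (Bornology.isBounded_biUnion_finset C).2 fun c hc => ?_
  exact Metric.isBounded_closedBall.subset (image_sub (hb c hc) le_rfl)

theorem sum_near (hR : 0 < R) (hb : ∀ c ∈ C, O c ⊆ Metric.ball 0 R)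
    (hs : ∀ c ∈ C, ∀ c' ∈ C, c ≠ c' → 4 * R ≤ dist (s c) (s c')) {c : Fin n} (hc : c ∈ C)
    {y : P} (hy : dist y (s c) < 2 * R) :
    y ∈ frontier (⋃ c ∈ C, (fun y => y + s c) '' O c) ↔ y - s c ∈ frontier (O c) := by
  set S : Set P := ⋃ c ∈ C, (fun y => y + s c) '' O c with hS
  set T : Set P := (fun y => y + s c) '' O c with hT
  have hU : IsOpen (Metric.ball (s c) (2 * R)) := Metric.isOpen_ball
  have hyU : y ∈ Metric.ball (s c) (2 * R) := hy
  have hST : S ∩ Metric.ball (s c) (2 * R) = T ∩ Metric.ball (s c) (2 * R) := by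
    ext z
    constructor
    · rintro ⟨hz, hz2⟩
      refine ⟨?_, hz2⟩
      rw [hS, mem_iUnion₂] at hz
      obtain ⟨c', hc', hz'⟩ := hz
      by_cases hcc : c = c'
      · subst hcc
        exact hz'
      · exfalso
        have h1 : dist z (s c') ≤ R := image_sub (hb c' hc') le_rfl hz'
        have h2 : dist z (s c) < 2 * R := hz2
        have h3 := hs c hc c' hc' hcc
        have h4 := dist_triangle_left (s c) (s c') z
        linarith
    · rintro ⟨hz, hz2⟩
      exact ⟨mem_iUnion₂.2 ⟨c, hc, hz⟩, hz2⟩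
  have h1 : y ∈ frontier S ↔ y ∈ frontier T := by
    have e1 := frontier_inter_open_inter (s := S) hU
    have e2 := frontier_inter_open_inter (s := T) hU
    rw [hST] at e1
    rw [e1] at e2
    constructor
    · intro h
      exact ((Set.ext_iff.1 e2 y).1 ⟨h, hyU⟩).1
    · intro h
      exact ((Set.ext_iff.1 e2 y).2 ⟨h, hyU⟩).1
  rw [h1]
  have h2 : frontier T = (fun y => y + s c) '' frontier (O c) :=
    ((Homeomorph.addRight (s c)).image_frontier (O c)).symm
  rw [h2]
  constructor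
  · rintro ⟨z, hz, rfl⟩
    simpa using hz
  · intro h
    exact ⟨y - s c, h, by simp⟩

theorem sum_closure (hR : 0 < R) (hb : ∀ c ∈ C, O c ⊆ Metric.ball 0 R) {y : P}
    (hy : y ∈ closure (⋃ c ∈ C, (fun y => y + s c) '' O c)) : ∃ c ∈ C, dist y (s c) ≤ R := by
  rw [Finset.closure_biUnion] at hy
  obtain ⟨c, hc, hy'⟩ := mem_iUnion₂.1 hy
  refine ⟨c, hc, ?_⟩
  exact (Metric.isClosed_closedBall.closure_subset_iff.2 (image_sub (hb c hc) le_rfl)) hy'

theorem sum_frontier (hR : 0 < R) (hb : ∀ c ∈ C, O c ⊆ Metric.ball 0 R)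
    (hs : ∀ c ∈ C, ∀ c' ∈ C, c ≠ c' → 4 * R ≤ dist (s c) (s c')) {y : P}
    (hy : y ∈ frontier (⋃ c ∈ C, (fun y => y + s c) '' O c)) :
    ∃ c ∈ C, dist y (s c) ≤ R ∧ y - s c ∈ frontier (O c) := by
  obtain ⟨c, hc, hcy⟩ := sum_closure hR hb (frontier_subset_closure hy)
  exact ⟨c, hc, hcy, (sum_near hR hb hs hc (by linarith)).1 hy⟩

theorem sum_loc (hR : 0 < R) (hb : ∀ c ∈ C, O c ⊆ Metric.ball 0 R)
    (hs : ∀ c ∈ C, ∀ c' ∈ C, c ≠ c' → 4 * R ≤ dist (s c) (s c'))
    (hl : ∀ c ∈ C, LocLine (frontier (O c)) (V c)) :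
    LocLine (frontier (⋃ c ∈ C, (fun y => y + s c) '' O c))
      (⋃ c ∈ C, (fun y => y + s c) '' V c) := by
  intro y hy hyV
  obtain ⟨c, hc, hcy, hyc⟩ := sum_frontier hR hb hs hy
  have hV : y - s c ∉ V c := fun h => hyV (mem_iUnion₂.2 ⟨c, hc, ⟨y - s c, h, by simp⟩⟩)
  obtain ⟨w, hw, r, hr, hl'⟩ := hl c hc _ hyc hV
  refine ⟨w, hw, min r R, lt_min hr hR, fun z hz => ?_⟩
  have hz1 : dist z y < r := lt_of_lt_of_le hz (min_le_left _ _)
  have hz2 : dist z y < R := lt_of_lt_of_le hz (min_le_right _ _)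
  have hz3 : dist z (s c) < 2 * R := by
    have := dist_triangle z y (s c)
    linarith
  rw [sum_near hR hb hs hc hz3, hl' (z - s c) (by rwa [dist_sub_right])]
  constructor
  · rintro ⟨a, ha⟩
    refine ⟨a, ?_⟩
    have : z = (z - s c) + s c := by simp
    rw [this, ha]
    abel
  · rintro ⟨a, ha⟩
    refine ⟨a, ?_⟩
    rw [ha]
    abel

end Pool.Agent.MP4eed4eX
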