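import Pool.Agent.Lib.MP_4eed4e_an_X.MDefs

set_option autoImplicit false

/-!
Project X, block MG, module GUlt: limits along an ultrafilter.

* `ult_lim`, `ult_lim_real`: `IsCompact.ultrafilter_le_nhds` for the closed ball and the ultrafilter
  `U.map f` (closed balls of `P` are compact, `isCompact_closedBall`); if only eventually
  `‖f k‖ ≤ C` use that the closed ball is in `U.map f`.
* `finite_VLim`: `VLim U p x` is the union over `i` of the sets
  `{y | Tendsto (fun k => p k i - x k) U (𝓝 y)}`, which have at most one element.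
* `notMem_VLim`: for every `i` there is `r > 0` with `¬ ∀ᶠ k, dist (p k i - x k) y < r`; for an
  ultrafilter (`Ultrafilter.eventually_not`) this is `∀ᶠ k, r ≤ dist ..`; minimum over `i`.
* `notMem_ELim`: negation of the definition, `Ultrafilter.eventually_not`.
* `mem_ELim_iff`: `→`: let `z k` be a point of the (compact, nonempty) segment with minimal
  distance of `z k - x k` from `y`.
* `isClosed_ELim`: if `y` is in the closure take `y' ∈ ELim` with `dist y y' < r / 2`.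
* `notMem_GLim`: `GLim` is a finite union; `Gr (p k) E` is the union of `range (p k)` and the
  segments; write `z' = x k + z`, `z' - x k = z`.
-/

namespace Pool.Agent.MP4eed4eX

open MeasureTheory Set Filter Topology Pool.Agent.MP4eed4eP

variable {n : ℕ} {U : Ultrafilter ℕ} {p : ℕ → Fin n → P} {E : Finset (Fin n × Fin n)}
  {x : ℕ → P}

theorem ult_lim {f : ℕ → P} {C : ℝ} (h : ∀ᶠ k in (U : Filter ℕ), ‖f k‖ ≤ C) :
    ∃ y, ‖y‖ ≤ C ∧ Tendsto f (U : Filter ℕ) (𝓝 y) := by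
  obtain ⟨y, hy, hU⟩ := (isCompact_closedBall (0 : P) C).ultrafilter_le_nhds' (U.map f) (by
    rw [Ultrafilter.mem_map]
    filter_upwards [h] with k hk
    simpa using hk)
  exact ⟨y, by simpa using hy, hU⟩

theorem ult_lim_real {f : ℕ → ℝ} {C : ℝ} (h : ∀ᶠ k in (U : Filter ℕ), |f k| ≤ C) :
    ∃ y, |y| ≤ C ∧ Tendsto f (U : Filter ℕ) (𝓝 y) := by
  obtain ⟨y, hy, hU⟩ := (isCompact_closedBall (0 : ℝ) C).ultrafilter_le_nhds' (U.map f) (by
    rw [Ultrafilter.mem_map]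
    filter_upwards [h] with k hk
    simpa using hk)
  exact ⟨y, by simpa using hy, hU⟩

theorem finite_VLim' : (VLim U p x).Finite := by
  have h : VLim U p x = ⋃ i, {y | Tendsto (fun k => p k i - x k) (U : Filter ℕ) (𝓝 y)} := by
    ext y
    simp [VLim]
  rw [h]
  refine Set.finite_iUnion fun i => Set.Subsingleton.finite ?_
  intro a ha b hb
  exact tendsto_nhds_unique ha hb

private theorem min_fin {ι : Type*} [Finite ι] {ρ : ι → ℝ} (h : ∀ i, 0 < ρ i) :
    ∃ r > 0, ∀ i, r ≤ ρ i := by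
  have h1 : ∀ᶠ r in 𝓝[>] (0 : ℝ), ∀ i, r ≤ ρ i :=
    eventually_all.2 fun i => (eventually_le_nhds (h i)).filter_mono nhdsWithin_le_nhds
  obtain ⟨r, hr, hr'⟩ := (h1.and self_mem_nhdsWithin).exists
  exact ⟨r, hr', hr⟩

private theorem min_fs {ι : Type*} (E : Finset ι) {ρ : ι → ℝ} (h : ∀ i ∈ E, 0 < ρ i) :
    ∃ r > 0, ∀ i ∈ E, r ≤ ρ i := by
  have h1 : ∀ᶠ r in 𝓝[>] (0 : ℝ), ∀ i ∈ E, r ≤ ρ i :=
    (Filter.eventually_all_finset E).2 fun i hi =>
      (eventually_le_nhds (h i hi)).filter_mono nhdsWithin_le_nhds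
  obtain ⟨r, hr, hr'⟩ := (h1.and self_mem_nhdsWithin).exists
  exact ⟨r, hr', hr⟩

theorem notMem_VLim {y : P} (h : y ∉ VLim U p x) :
    ∃ r > 0, ∀ᶠ k in (U : Filter ℕ), ∀ i, r ≤ dist (p k i - x k) y := by
  have h1 : ∀ i, ∃ r > 0, ∀ᶠ k in (U : Filter ℕ), r ≤ dist (p k i - x k) y := by
    intro i
    have h2 : ¬ Tendsto (fun k => p k i - x k) (U : Filter ℕ) (𝓝 y) := fun h3 => h ⟨i, h3⟩
    rw [Metric.tendsto_nhds] at h2
    push Not at h2
    obtain ⟨r, hr, h3⟩ := h2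
    exact ⟨r, hr, h3⟩
  choose ρ h0 h2 using h1
  obtain ⟨r, hr, h3⟩ := min_fin h0
  refine ⟨r, hr, eventually_all.2 fun i => ?_⟩
  filter_upwards [h2 i] with k hk
  exact (h3 i).trans hk

theorem notMem_ELim {y : P} {e : Fin n × Fin n} (h : y ∉ ELim U p x e) :
    ∃ r > 0, ∀ᶠ k in (U : Filter ℕ), ∀ z ∈ segment ℝ (p k e.1) (p k e.2),
      r ≤ dist (z - x k) y := by
  have h1 : ¬ ∀ r > 0, ∀ᶠ k in (U : Filter ℕ), ∃ z ∈ segment ℝ (p k e.1) (p k e.2),
    dist (z - x k) y < r := h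
  push Not at h1
  obtain ⟨r, hr, h2⟩ := h1
  exact ⟨r, hr, h2⟩

private theorem cpt_segment (a b : P) : IsCompact (segment ℝ a b) := by
  rw [segment_eq_image]
  refine isCompact_Icc.image ?_
  fun_prop

theorem mem_ELim_iff {y : P} {e : Fin n × Fin n} : y ∈ ELim U p x e ↔
    ∃ z : ℕ → P, (∀ k, z k ∈ segment ℝ (p k e.1) (p k e.2)) ∧
      Tendsto (fun k => z k - x k) (U : Filter ℕ) (𝓝 y) := by
  constructor
  · intro h
    have h1 : ∀ k, ∃ z ∈ segment ℝ (p k e.1) (p k e.2), IsMinOn (fun z => dist (z - x k) y)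
        (segment ℝ (p k e.1) (p k e.2)) z := by
      intro k
      refine (cpt_segment _ _).exists_isMinOn ⟨_, left_mem_segment ℝ _ _⟩ ?_
      fun_prop
    choose z hz hm using h1
    refine ⟨z, hz, ?_⟩
    rw [Metric.tendsto_nhds]
    intro r hr
    filter_upwards [h r hr] with k hk
    obtain ⟨z', hz', hd⟩ := hk
    exact lt_of_le_of_lt (isMinOn_iff.1 (hm k) z' hz') hd
  · rintro ⟨z, hz, ht⟩ r hr
    rw [Metric.tendsto_nhds] at ht
    filter_upwards [ht r hr] with k hk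
    exact ⟨z k, hz k, hk⟩

theorem isClosed_VLim : IsClosed (VLim U p x) := by
  exact finite_VLim'.isClosed

theorem isClosed_ELim (e : Fin n × Fin n) : IsClosed (ELim U p x e) := by
  refine isClosed_of_closure_subset fun y hy r hr => ?_
  obtain ⟨y', hy', hd⟩ := Metric.mem_closure_iff.1 hy (r / 2) (half_pos hr)
  filter_upwards [hy' (r / 2) (half_pos hr)] with k hk
  obtain ⟨z, hz, hd'⟩ := hk
  refine ⟨z, hz, ?_⟩
  calc dist (z - x k) y ≤ dist (z - x k) y' + dist y' y := dist_triangle _ _ _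
    _ < r / 2 + r / 2 := add_lt_add hd' (by rwa [dist_comm])
    _ = r := by ring

theorem isClosed_GLim' : IsClosed (GLim U p E x) := by
  exact isClosed_VLim.union (isClosed_biUnion_finset fun e _ => isClosed_ELim e)

theorem notMem_GLim {y : P} (h : y ∉ GLim U p E x) :
    ∃ r > 0, ∀ᶠ k in (U : Filter ℕ), ∀ z, dist z y < r → x k + z ∉ Gr (p k) E := by
  have h0 : y ∉ VLim U p x := fun h1 => h (Or.inl h1)
  have h1 : ∀ e ∈ E, ∃ r > 0, ∀ᶠ k in (U : Filter ℕ), ∀ z ∈ segment ℝ (p k e.1) (p k e.2),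
      r ≤ dist (z - x k) y := fun e he =>
    notMem_ELim fun h2 => h (Or.inr (mem_iUnion₂.2 ⟨e, he, h2⟩))
  obtain ⟨r₀, hr₀, h2⟩ := notMem_VLim h0
  choose! ρ h3 h4 using h1
  obtain ⟨r₁, hr₁, h5⟩ := min_fs E h3
  refine ⟨min r₀ r₁, lt_min hr₀ hr₁, ?_⟩
  have h6 : ∀ᶠ k in (U : Filter ℕ), ∀ e ∈ E, ∀ z ∈ segment ℝ (p k e.1) (p k e.2),
      ρ e ≤ dist (z - x k) y := (Filter.eventually_all_finset E).2 h4
  filter_upwards [h2, h6] with k hk hk' z hz hG
  rcases hG with ⟨i, hi⟩ | hG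
  · have h7 := hk i
    rw [hi, add_sub_cancel_left] at h7
    exact absurd (lt_of_lt_of_le hz (min_le_left _ _)) (not_lt.2 h7)
  · obtain ⟨e, he, hs⟩ := mem_iUnion₂.1 hG
    have h7 := hk' e he _ hs
    rw [add_sub_cancel_left] at h7
    exact absurd (lt_of_lt_of_le hz ((min_le_right _ _).trans (h5 e he))) (not_lt.2 h7)

end Pool.Agent.MP4eed4eX
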