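import Pool.Agent.Lib.MP_4eed4e_an_XG.GSum
import Pool.Agent.Lib.MP_4eed4e_an_XG.GSeg
import Pool.Agent.Lib.MP_4eed4e_an_XG.GClu
import Pool.Agent.Lib.MP_4eed4e_an_XG.GBdd

set_option autoImplicit false

/-!
Project X, block MG, module GUni: the union of the limits of the clusters (M5).

Proof of `Sys.union'`. Write `O c = OLim U D (ctr p c)`, `V c = VLim U p (ctr p c)`, `C = Rep U p`.
There is `R > 0` with `O c ∪ V c ⊆ ball 0 R` for all `c` (`Sys.bdd_OLim'`, `finite_VLim'`). Put
`s c = (4 * R * (c : ℕ), 0)`. For every `i : Fin n` choose `r i ∈ C` with `Near U p (r i) i`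
(`exists_rep'`) and `v i ∈ V (r i)` with `p k i - p k (r i) → v i` (`Near.lim'`);
`q i = v i + s (r i)`. `S = DLim U D p s` is open, bounded (`sum_open`, `sum_bdd`), and
`V' = ⋃ c ∈ C, (fun y => y + s c) '' V c ⊆ range q`: if `y ∈ V c`, `c ∈ C`, then `y` is the limit of
`p k i - p k c` for some `i`, so `Near U p c i` (`near_of_lim`), `r i = c` (`rep_unique`,
`Near.trans`), `y = v i` (uniqueness of limits), `y + s c = q i`; and `range q ⊆ V'`. So `V' =
range q`
is finite with at most `n` elements, and `LocLine (frontier S) V'` (`sum_loc`, `Sys.loc`).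
Let `F = V' ∩ frontier S` (finite).

* If `F` has `n` elements, then `q` is injective and `range q = V' = F`; `M = n`, `p' = q`, `E'`
  from
  `exists_fig`; for the last statement take the same `q`, `E'`. If `C` has only one element `c`,
  then
  `r i = c` for all `i` and `p k i - p k j = (p k i - p k c) - (p k j - p k c) → v i - v j = q i -
  q j`:
  first alternative. Otherwise let `c` be the least element of `C`, `c' ∈ C` another one, and
  `t = (s c).1 + 2 * R`. For every `d ∈ C`, `d ≠ c`: `(s d).1 ≥ (s c).1 + 4 * R`. So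
  `(q i).1 < t` if `r i = c` (`‖v i‖ < R`), `(q i).1 > t` if `r i ≠ c`; `r c = c`, `r c' = c'`
  (`near_refl`, `rep_unique`) give both kinds of `i`. By `sum_closure` every `x` in the closure of
  `S` has `dist x (s d) ≤ R` for some `d ∈ C`, so `x.1 ≤ (s c).1 + R < t` or
  `x.1 ≥ (s c).1 + 3 * R > t`: second alternative. (If `n = 0` then `C` is empty and the first
  alternative is trivially true.)
* If `F` has `M < n` elements let `p' : Fin M → P` be an enumeration of `F` (`Finset.equivFin`),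
  `E'`
  from `exists_fig`.
-/

namespace Pool.Agent.MP4eed4eX

open MeasureTheory Set Filter Topology Pool.Agent.MP4eed4eP

variable {n : ℕ} {U : Ultrafilter ℕ} {D : ℕ → Set P} {p : ℕ → Fin n → P}
  {E : Finset (Fin n × Fin n)} {l : ℕ → ℝ} {x : ℕ → P}

private theorem GUni_bd (h : Sys U D p E l) : ∃ R : ℝ, 0 < R ∧
    ∀ c : Fin n, OLim U D (ctr p c) ⊆ Metric.ball 0 R ∧ VLim U p (ctr p c) ⊆ Metric.ball 0 R := by
  have h1 : Bornology.IsBounded (⋃ c : Fin n, (OLim U D (ctr p c) ∪ VLim U p (ctr p c))) :=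
    Bornology.isBounded_iUnion.2 fun c =>
      (h.bdd_OLim' (x := ctr p c)).union finite_VLim'.isBounded
  obtain ⟨R, hR0, hR⟩ := h1.subset_ball_lt 0 0
  exact ⟨R, hR0, fun c => ⟨fun y hy => hR (mem_iUnion.2 ⟨c, Or.inl hy⟩),
    fun y hy => hR (mem_iUnion.2 ⟨c, Or.inr hy⟩)⟩⟩

private theorem GUni_s {R : ℝ} (hR : 0 < R) {c c' : Fin n} (h : c ≠ c') :
    4 * R ≤ dist (((4 * R * (c : ℕ), 0) : P)) ((4 * R * (c' : ℕ), 0) : P) := by
  have h1 : (1 : ℝ) ≤ |(((c : ℕ) : ℝ)) - ((c' : ℕ) : ℝ)| := by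
    have h2 : ((c : ℕ) : ℤ) - ((c' : ℕ) : ℤ) ≠ 0 := by
      intro h3
      apply h
      apply Fin.ext
      omega
    have h3 := Int.one_le_abs h2
    have h4 : ((1 : ℤ) : ℝ) ≤ ((|((c : ℕ) : ℤ) - ((c' : ℕ) : ℤ)| : ℤ) : ℝ) := by exact_mod_cast h3
    push_cast at h4
    exact h4
  rw [Prod.dist_eq]
  refine le_trans ?_ (le_max_left _ _)
  simp only
  rw [Real.dist_eq]
  have h2 : 4 * R * ((c : ℕ) : ℝ) - 4 * R * ((c' : ℕ) : ℝ) =
      4 * R * (((c : ℕ) : ℝ) - ((c' : ℕ) : ℝ)) := by ring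
  rw [h2, abs_mul, abs_of_pos (by linarith : 0 < 4 * R)]
  nlinarith

private theorem GUni_V {r : Fin n → Fin n} (hrC : ∀ i, r i ∈ Rep U p)
    (hrN : ∀ i, Near U p (r i) i) {v : Fin n → P} (hvV : ∀ i, v i ∈ VLim U p (ctr p (r i)))
    (hvT : ∀ i, Tendsto (fun k => p k i - p k (r i)) (U : Filter ℕ) (𝓝 (v i)))
    (s : Fin n → P) :
    (⋃ c ∈ Rep U p, (fun y => y + s c) '' VLim U p (ctr p c)) =
      range (fun i => v i + s (r i)) := by
  apply Subset.antisymm
  · intro z hz
    obtain ⟨c, hc, y, hy, rfl⟩ := mem_iUnion₂.1 hz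
    obtain ⟨i, hi⟩ := hy
    have hi' : Tendsto (fun k => p k i - p k c) (U : Filter ℕ) (𝓝 y) := hi
    have h1 : Near U p c i := near_of_lim hi'
    have h2 : r i = c := rep_unique (hrC i) hc ((hrN i).trans h1.symm)
    refine ⟨i, ?_⟩
    have h3 := hvT i
    rw [h2] at h3
    have h4 : v i = y := tendsto_nhds_unique h3 hi'
    simp only
    rw [h2, h4]
  · rintro _ ⟨i, rfl⟩
    exact mem_iUnion₂.2 ⟨r i, hrC i, v i, hvV i, rfl⟩

private theorem GUni_alt {R : ℝ} (hR : 0 < R) (s : Fin n → P)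
    (hs : s = fun c : Fin n => (4 * R * (c : ℕ), 0))
    (hb : ∀ c ∈ Rep U p, OLim U D (ctr p c) ⊆ Metric.ball 0 R)
    {r : Fin n → Fin n} (hrC : ∀ i, r i ∈ Rep U p)
    (hrN : ∀ i, Near U p (r i) i) {v : Fin n → P} (hvR : ∀ i, v i ∈ Metric.ball (0 : P) R)
    (hvT : ∀ i, Tendsto (fun k => p k i - p k (r i)) (U : Filter ℕ) (𝓝 (v i))) :
    (∀ i j, Tendsto (fun k => p k i - p k j) U
      (𝓝 ((v i + s (r i)) - (v j + s (r j))))) ∨
      ∃ t : ℝ, (∃ i, (v i + s (r i)).1 < t) ∧ (∃ i, t < (v i + s (r i)).1) ∧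
        ∀ x ∈ closure (DLim U D p s), x.1 ≠ t := by
  by_cases hall : ∀ i j, r i = r j
  · left
    intro i j
    have h1 := (hvT i).sub (hvT j)
    rw [hall j i] at h1
    rw [hall j i]
    have e1 : v i + s (r i) - (v j + s (r i)) = v i - v j := by abel
    rw [e1]
    refine h1.congr fun k => ?_
    abel
  · right
    push Not at hall
    obtain ⟨i0, j0, hij⟩ := hall
    have hne : (Rep U p).Nonempty := ⟨_, hrC i0⟩
    set c := (Rep U p).min' hne with hc
    have hcC : c ∈ Rep U p := Finset.min'_mem _ _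
    have hcle : ∀ d ∈ Rep U p, c ≤ d := fun d hd => Finset.min'_le _ _ hd
    have hv1 : ∀ i, |(v i).1| < R := by
      intro i
      have h1 := hvR i
      rw [Metric.mem_ball, dist_zero_right] at h1
      exact lt_of_le_of_lt (norm_fst_le (v i)) h1
    have hs1 : ∀ d, (s d).1 = 4 * R * (d : ℕ) := by
      intro d
      rw [hs]
    have hfar : ∀ d ∈ Rep U p, d ≠ c → (s c).1 + 4 * R ≤ (s d).1 := by
      intro d hd hdc
      have h1 : (c : ℕ) + 1 ≤ (d : ℕ) := by
        have h2 := lt_of_le_of_ne (hcle d hd) (Ne.symm hdc)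
        exact h2
      have h2 : ((c : ℕ) : ℝ) + 1 ≤ ((d : ℕ) : ℝ) := by exact_mod_cast h1
      rw [hs1, hs1]
      nlinarith
    have hrc : r c = c := rep_unique (hrC c) hcC (hrN c)
    obtain ⟨i1, hi1⟩ : ∃ i, r i ≠ c := by
      by_contra hcon
      push Not at hcon
      exact hij ((hcon i0).trans (hcon j0).symm)
    refine ⟨(s c).1 + 2 * R, ⟨c, ?_⟩, ⟨i1, ?_⟩, ?_⟩
    · rw [Prod.fst_add, hrc]
      have := (abs_lt.1 (hv1 c)).2
      linarith
    · rw [Prod.fst_add]
      have h1 := (abs_lt.1 (hv1 i1)).1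
      have h2 := hfar (r i1) (hrC i1) hi1
      linarith
    · intro x hx hxt
      obtain ⟨d, hd, hdx⟩ := sum_closure hR hb hx
      have h1 : |x.1 - (s d).1| ≤ R := by
        have h2 : dist x.1 (s d).1 ≤ dist x (s d) := by
          rw [Prod.dist_eq]
          exact le_max_left _ _
        rw [Real.dist_eq] at h2
        exact h2.trans hdx
      have h2 := abs_le.1 h1
      by_cases hdc : d = c
      · rw [hdc] at h2
        linarith [h2.2]
      · have h3 := hfar d hd hdc
        linarith [h2.1]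

theorem Sys.union' (h : Sys U D p E l) : ∃ (s : Fin n → P) (R : ℝ), 0 < R ∧
    (∀ c ∈ Rep U p, OLim U D (ctr p c) ⊆ Metric.ball 0 R) ∧
    (∀ c ∈ Rep U p, ∀ c' ∈ Rep U p, c ≠ c' → 4 * R ≤ dist (s c) (s c')) ∧
    ∃ (M : ℕ) (p' : Fin M → P) (E' : Finset (Fin M × Fin M)), M ≤ n ∧
      Fig (DLim U D p s) p' E' ∧
      (M = n → ∃ (q : Fin n → P) (E'' : Finset (Fin n × Fin n)), Fig (DLim U D p s) q E'' ∧
        ((∀ i j, Tendsto (fun k => p k i - p k j) U (𝓝 (q i - q j))) ∨
          ∃ t : ℝ, (∃ i, (q i).1 < t) ∧ (∃ i, t < (q i).1) ∧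
            ∀ x ∈ closure (DLim U D p s), x.1 ≠ t)) := by
  classical
  obtain ⟨R, hR, hRb⟩ := GUni_bd h
  choose r hrC hrN using exists_rep' U p
  choose v hvV hvT using fun i => (hrN i).lim'
  obtain ⟨s, hs⟩ : ∃ s : Fin n → P, s = fun c : Fin n => (4 * R * (c : ℕ), 0) :=
    ⟨_, rfl⟩
  have hsd : ∀ c ∈ Rep U p, ∀ c' ∈ Rep U p, c ≠ c' → 4 * R ≤ dist (s c) (s c') := by
    intro c _ c' _ hne
    rw [hs]
    exact GUni_s hR hne
  have hOb : ∀ c ∈ Rep U p, OLim U D (ctr p c) ⊆ Metric.ball 0 R := fun c _ => (hRb c).1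
  refine ⟨s, R, hR, hOb, hsd, ?_⟩
  have hV := GUni_V hrC hrN hvV hvT s
  have hVfin : (⋃ c ∈ Rep U p, (fun y => y + s c) '' VLim U p (ctr p c)).Finite := by
    rw [hV]
    exact finite_range _
  have hloc : LocLine (frontier (DLim U D p s))
      (⋃ c ∈ Rep U p, (fun y => y + s c) '' VLim U p (ctr p c)) :=
    sum_loc hR hOb hsd fun c _ => h.loc
  have hop : IsOpen (DLim U D p s) := sum_open fun c _ => isOpen_OLim'
  have hbd : Bornology.IsBounded (DLim U D p s) := sum_bdd hOb
  rw [hV] at hVfin hloc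
  have hF : (range (fun i => v i + s (r i)) ∩ frontier (DLim U D p s)).Finite :=
    hVfin.inter_of_left _
  have hcard : (range (fun i => v i + s (r i))).ncard ≤ n := by
    rw [← image_univ]
    refine (ncard_image_le finite_univ).trans ?_
    rw [ncard_univ, Nat.card_fin]
  have hFle := ncard_le_ncard (inter_subset_left (s := range (fun i => v i + s (r i)))
    (t := frontier (DLim U D p s))) hVfin
  by_cases hM : (range (fun i => v i + s (r i)) ∩ frontier (DLim U D p s)).ncard = n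
  · have hn : (range (fun i => v i + s (r i))).ncard = n := 
      le_antisymm hcard (hM.symm.le.trans hFle)
    have hFV : range (fun i => v i + s (r i)) ∩ frontier (DLim U D p s) =
        range (fun i => v i + s (r i)) :=
      eq_of_subset_of_ncard_le inter_subset_left (by rw [hM, hn]) hVfin
    have hinj : Function.Injective (fun i => v i + s (r i)) := by
      rw [← injOn_univ]
      refine injOn_of_ncard_image_eq ?_ finite_univ
      rw [image_univ, hn, ncard_univ, Nat.card_fin]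
    obtain ⟨E', hE'⟩ := exists_fig hop hbd hVfin hloc (fun i => v i + s (r i)) hinj hFV.symm
    exact ⟨n, _, E', le_rfl, hE', fun _ => ⟨_, E', hE', GUni_alt hR s hs hOb hrC hrN
      (fun i => (hRb (r i)).2 (hvV i)) hvT⟩⟩
  · have hlt : hF.toFinset.card < n := by
      rw [← ncard_eq_toFinset_card _ hF]
      exact lt_of_le_of_ne (hFle.trans hcard) hM
    obtain ⟨E', hE'⟩ := exists_fig hop hbd hVfin hloc
      (fun i : Fin hF.toFinset.card => ((hF.toFinset.equivFin.symm i : hF.toFinset) : P))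
      (Subtype.val_injective.comp (Equiv.injective _)) (by
        have h1 := (hF.toFinset.equivFin.symm).surjective.range_comp
          (fun x : hF.toFinset => (x : P))
        have h2 : range (fun x : hF.toFinset => (x : P)) =
            range (fun i => v i + s (r i)) ∩ frontier (DLim U D p s) := by
          ext z
          simp
        exact h1.trans h2)
    exact ⟨_, _, E', hlt.le, hE', fun h3 => absurd h3 hlt.ne⟩

end Pool.Agent.MP4eed4eX
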